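import Mathlib

/-!
# Descent of annihilator-type ideals of `ℤ[X]` (MP_e74dc5_nt)
-/

set_option autoImplicit false

open Polynomial

noncomputable section

namespace Helper62.Weber

/-- the ideal `(l, X^(2^e)+1)` -/
def J (l : ℕ) (e : ℕ) : Ideal ℤ[X] := Ideal.span {C (l : ℤ), X ^ (2 ^ e) + 1}

theorem frob (l : ℕ) [Fact l.Prime] (f : ℤ[X]) : ∃ g : ℤ[X], f ^ l = expand ℤ l f + C (l : ℤ) * g := by
  have h : C (l : ℤ) ∣ f ^ l - expand ℤ l f := by
    rw [C_dvd_iff_dvd_coeff]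
    intro i
    have h1 : (f ^ l - expand ℤ l f).map (Int.castRingHom (ZMod l)) = 0 := by
      rw [Polynomial.map_sub, Polynomial.map_pow, Polynomial.map_expand, ZMod.expand_card, sub_self]
    have h2 := congrArg (fun p => p.coeff i) h1
    simp only [coeff_map, coeff_zero] at h2
    rwa [eq_intCast, ZMod.intCast_zmod_eq_zero_iff_dvd] at h2
  obtain ⟨g, hg⟩ := h
  exact ⟨g, by rw [← hg]; ring⟩

theorem expand_mem {l : ℕ} [Fact l.Prime] {I : Ideal ℤ[X]} (hl : C (l : ℤ) ∈ I) {f : ℤ[X]}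
    (hf : f ∈ I) : expand ℤ l f ∈ I := by
  obtain ⟨g, hg⟩ := frob l f
  have : expand ℤ l f = f ^ l - C (l : ℤ) * g := by rw [hg]; ring
  rw [this]
  exact I.sub_mem (I.pow_mem_of_mem hf l (Nat.Prime.pos Fact.out)) (I.mul_mem_right g hl)

theorem expand_pow_mem {l : ℕ} [Fact l.Prime] {I : Ideal ℤ[X]} (hl : C (l : ℤ) ∈ I) {f : ℤ[X]}
    (hf : f ∈ I) (k : ℕ) : expand ℤ (l ^ k) f ∈ I := by
  induction k with
  | zero => simpa using hf
  | succ k ih =>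
    rw [pow_succ', ← expand_expand]
    exact expand_mem hl ih

/-- closed under `X ↦ -X` -/
theorem comp_neg_mem {l : ℕ} [Fact l.Prime] {I : Ideal ℤ[X]} (hl : C (l : ℤ) ∈ I) {e : ℕ}
    (he : X ^ (2 ^ e) + 1 ∈ I) {k c : ℕ} (hk : l ^ k = 1 + 2 ^ e * c) (hc : Odd c) {f : ℤ[X]}
    (hf : f ∈ I) : f.comp (-X) ∈ I := by
  have h1 := expand_pow_mem hl hf k
  rw [← Ideal.Quotient.eq_zero_iff_mem] at h1 he ⊢
  rw [expand_eq_comp_X_pow] at h1
  have h2 : ∀ g : ℤ[X], Ideal.Quotient.mk I (f.comp g) = aeval (Ideal.Quotient.mk I g) f := by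
    intro g
    rw [comp, hom_eval₂, aeval_def]
    congr 1
  rw [h2] at h1 ⊢
  have h3 : Ideal.Quotient.mk I (X ^ l ^ k) = Ideal.Quotient.mk I (-X) := by
    rw [hk, pow_add, pow_mul, pow_one]
    rw [map_add, map_one] at he
    have h4 : Ideal.Quotient.mk I (X ^ 2 ^ e) = Ideal.Quotient.mk I (-1) := by
      rw [map_neg, map_one, eq_neg_iff_add_eq_zero]
      exact he
    rw [map_mul, map_pow, h4, ← map_pow, hc.neg_one_pow, ← map_mul, mul_neg_one]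
  rw [← h3]
  exact h1

theorem split (f : ℤ[X]) : ∃ f₀ f₁ : ℤ[X], f = expand ℤ 2 f₀ + X * expand ℤ 2 f₁ := by
  induction f using Polynomial.induction_on' with
  | add p q hp hq =>
    obtain ⟨p₀, p₁, hp⟩ := hp
    obtain ⟨q₀, q₁, hq⟩ := hq
    refine ⟨p₀ + q₀, p₁ + q₁, ?_⟩
    rw [map_add, map_add]
    conv_lhs => rw [hp, hq]
    ring
  | monomial m a =>
    rcases Nat.even_or_odd' m with ⟨k, rfl | rfl⟩
    · refine ⟨monomial k a, 0, ?_⟩
      rw [expand_monomial, map_zero, mul_zero, add_zero, mul_comm]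
    · refine ⟨0, monomial k a, ?_⟩
      rw [expand_monomial, map_zero, zero_add, X_mul_monomial, mul_comm]

theorem two_mem {l : ℕ} (h2 : Odd l) {I : Ideal ℤ[X]} (hl : C (l : ℤ) ∈ I) {f : ℤ[X]}
    (hf : 2 * f ∈ I) : f ∈ I := by
  obtain ⟨k, hk⟩ := h2
  have : f = C (l : ℤ) * f - (k : ℤ[X]) * (2 * f) := by
    rw [hk]
    push_cast
    simp only [C_add, C_mul, C_1]
    have : C (k : ℤ) = (k : ℤ[X]) := by simp
    rw [this]
    have h2' : (C 2 : ℤ[X]) = 2 := rfl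
    rw [h2']
    ring
  rw [this]
  exact I.sub_mem (I.mul_mem_right _ hl) (I.mul_mem_left _ hf)

theorem X_mem {e : ℕ} {I : Ideal ℤ[X]} (he : X ^ (2 ^ e) + 1 ∈ I) {f : ℤ[X]}
    (hf : X * f ∈ I) : f ∈ I := by
  have : f = (X ^ (2 ^ e) + 1) * f - X ^ (2 ^ e - 1) * (X * f) := by
    have h : (X : ℤ[X]) ^ (2 ^ e) = X ^ (2 ^ e - 1) * X := by
      rw [← pow_succ, Nat.sub_add_cancel (Nat.one_le_two_pow)]
    rw [h]
    ring
  rw [this]
  exact I.sub_mem (I.mul_mem_right _ he) (I.mul_mem_left _ hf)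

theorem J_le {l e : ℕ} {I : Ideal ℤ[X]} (hl : C (l : ℤ) ∈ I) (he : X ^ (2 ^ e) + 1 ∈ I) :
    J l e ≤ I := by
  rw [J, Ideal.span_le]
  rintro f (rfl | rfl)
  · exact hl
  · exact he

theorem expand_J {l e : ℕ} {f : ℤ[X]} (hf : f ∈ J l e) : expand ℤ 2 f ∈ J l (e + 1) := by
  have h : J l e ≤ (J l (e + 1)).comap (expand ℤ 2 : ℤ[X] →ₐ[ℤ] ℤ[X]) := by
    refine J_le ?_ ?_
    · rw [Ideal.mem_comap, expand_C]
      exact Ideal.subset_span (by simp)
    · rw [Ideal.mem_comap, map_add, map_pow, expand_X, map_one, ← pow_mul, ← pow_succ']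
      exact Ideal.subset_span (by simp)
  exact h hf

/-- one step of the descent -/
theorem step {l : ℕ} [Fact l.Prime] (h2 : Odd l) {I : Ideal ℤ[X]} (hl : C (l : ℤ) ∈ I) {e : ℕ}
    (he : X ^ (2 ^ (e + 1)) + 1 ∈ I) {k c : ℕ} (hk : l ^ k = 1 + 2 ^ (e + 1) * c) (hc : Odd c)
    (hI : ¬ I ≤ J l (e + 1)) :
    ¬ I.comap (expand ℤ 2 : ℤ[X] →ₐ[ℤ] ℤ[X]) ≤ J l e := by
  intro hle
  apply hI
  intro f hf
  obtain ⟨f₀, f₁, h⟩ := split f
  have h1 := comp_neg_mem hl he hk hc hf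
  have h3 : f.comp (-X) = expand ℤ 2 f₀ - X * expand ℤ 2 f₁ := by
    rw [h, add_comp, mul_comp, X_comp]
    have h4 : ∀ g : ℤ[X], (expand ℤ 2 g).comp (-X) = expand ℤ 2 g := by
      intro g
      rw [expand_eq_comp_X_pow, comp_assoc, pow_comp, X_comp, neg_sq]
    rw [h4, h4]
    ring
  have h5 : expand ℤ 2 f₀ ∈ I := by
    refine two_mem h2 hl ?_
    have : 2 * expand ℤ 2 f₀ = f + f.comp (-X) := by
      rw [h3]
      conv_rhs => rw [h]
      ring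
    rw [this]
    exact I.add_mem hf h1
  have h6 : expand ℤ 2 f₁ ∈ I := by
    refine X_mem he ?_
    have : X * expand ℤ 2 f₁ = f - expand ℤ 2 f₀ := by
      conv_rhs => rw [h]
      ring
    rw [this]
    exact I.sub_mem hf h5
  have h7 := expand_J (hle (Ideal.mem_comap.2 h5))
  have h8 := expand_J (hle (Ideal.mem_comap.2 h6))
  rw [h]
  exact Ideal.add_mem _ h7 (Ideal.mul_mem_left _ _ h8)

/-- descent from level `e + d` to level `e` -/
theorem descent {l : ℕ} [Fact l.Prime] (h2 : Odd l) (e : ℕ)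
    (hk : ∀ e' > e, ∃ k c : ℕ, l ^ k = 1 + 2 ^ e' * c ∧ Odd c) (d : ℕ) :
    ∀ {I : Ideal ℤ[X]}, C (l : ℤ) ∈ I → X ^ (2 ^ (e + d)) + 1 ∈ I → ¬ I ≤ J l (e + d) →
      ¬ I.comap (expand ℤ (2 ^ d) : ℤ[X] →ₐ[ℤ] ℤ[X]) ≤ J l e := by
  induction d with
  | zero =>
    intro I hl he hI hle
    apply hI
    intro f hf
    have := hle (show f ∈ I.comap (expand ℤ (2 ^ 0) : ℤ[X] →ₐ[ℤ] ℤ[X]) by
      rw [Ideal.mem_comap, pow_zero, expand_one]; exact hf)
    simpa using this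
  | succ d ih =>
    intro I hl he hI
    obtain ⟨k, c, hkc, hc⟩ := hk (e + (d + 1)) (by omega)
    have h1 := step h2 hl (e := e + d) he hkc hc hI
    have hl' : C (l : ℤ) ∈ I.comap (expand ℤ 2 : ℤ[X] →ₐ[ℤ] ℤ[X]) := by
      rw [Ideal.mem_comap, expand_C]; exact hl
    have he' : X ^ (2 ^ (e + d)) + 1 ∈ I.comap (expand ℤ 2 : ℤ[X] →ₐ[ℤ] ℤ[X]) := by
      rw [Ideal.mem_comap, map_add, map_pow, expand_X, map_one, ← pow_mul, ← pow_succ']
      exact he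
    have h3 := ih hl' he' h1
    intro hle
    apply h3
    intro f hf
    apply hle
    rw [Ideal.mem_comap, Ideal.mem_comap, expand_expand, ← pow_succ'] at hf
    rw [Ideal.mem_comap]
    exact hf

/-- extraction of a polynomial of small degree -/
theorem small {l : ℕ} {e : ℕ} {I : Ideal ℤ[X]} (he : X ^ (2 ^ e) + 1 ∈ I)
    (hI : ¬ I ≤ J l e) : ∃ a : ℤ[X], a ∈ I ∧ a.natDegree < 2 ^ e ∧ ¬ C (l : ℤ) ∣ a := by
  obtain ⟨f, hf, hfJ⟩ := Set.not_subset.1 hI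
  have hm : (X ^ (2 ^ e) + 1 : ℤ[X]).Monic := monic_X_pow_add_C (1 : ℤ) (by positivity)
  have hd : (X ^ (2 ^ e) + 1 : ℤ[X]).natDegree = 2 ^ e := by
    have := natDegree_X_pow_add_C (n := 2 ^ e) (r := (1 : ℤ))
    simpa using this
  have h1 := modByMonic_add_div f (q := (X ^ (2 ^ e) + 1 : ℤ[X]))
  refine ⟨f %ₘ (X ^ (2 ^ e) + 1), ?_, ?_, ?_⟩
  · have : f %ₘ (X ^ (2 ^ e) + 1) = f - (X ^ (2 ^ e) + 1) * (f /ₘ (X ^ (2 ^ e) + 1)) := by
      rw [eq_sub_iff_add_eq]; exact h1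
    rw [this]
    exact I.sub_mem hf (I.mul_mem_right _ he)
  · have h2 := natDegree_modByMonic_lt f hm (by
      intro h
      rw [h, natDegree_one] at hd
      have : 0 < 2 ^ e := by positivity
      omega)
    rwa [hd] at h2
  · rintro ⟨g, hg⟩
    apply hfJ
    rw [← h1, hg]
    refine Ideal.add_mem _ (Ideal.mul_mem_right _ _ (Ideal.subset_span (by simp)))
      (Ideal.mul_mem_right _ _ (Ideal.subset_span (by simp)))

/-- the powers of `l` reach every level above `v₂(l²-1)` -/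
theorem levels {l t : ℕ} (ht : 3 ≤ t) {c₀ : ℕ} (hc₀ : Odd c₀) (h : l ^ 2 = 1 + 2 ^ t * c₀) (j : ℕ) :
    ∃ k c : ℕ, l ^ k = 1 + 2 ^ (t + j) * c ∧ Odd c := by
  induction j with
  | zero => exact ⟨2, c₀, h, hc₀⟩
  | succ j ih =>
    obtain ⟨k, c, hk, hc⟩ := ih
    refine ⟨2 * k, c + 2 ^ (t + j - 1) * c ^ 2, ?_, ?_⟩
    · rw [mul_comm, pow_mul, hk]
      have : 2 ^ (t + j) = 2 * 2 ^ (t + j - 1) := by
        rw [← pow_succ']; congr 1; omega
      have h2 : 2 ^ (t + (j + 1)) = 2 * 2 ^ (t + j) := by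
        rw [← pow_succ']; congr 1
      rw [h2]
      generalize 2 ^ (t + j) = A at *
      subst this
      ring
    · refine hc.add_even ?_
      refine Even.mul_right ?_ _
      exact (Nat.even_pow.2 ⟨even_two, by omega⟩)

end Helper62.Weber
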