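import Pool.Agent.Helper62.Weber.Eps

/-!
# Heights of relative units (MP_e74dc5_nt)
-/

set_option autoImplicit false

open IntermediateField

noncomputable section

namespace Helper62.Weber

/-- the number of automorphisms -/
def cG (n : ℕ) : ℝ := Fintype.card (B n ≃ₐ[ℚ] B n)

theorem cG_pos (n : ℕ) : 0 < cG n := by
  have : 0 < Fintype.card (B n ≃ₐ[ℚ] B n) := Fintype.card_pos
  exact Nat.cast_pos.2 this

/-- the `ℓ¹` norm of the logarithmic embedding -/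
def W {n : ℕ} (u : (B n)ˣ) : ℝ := ∑ g : B n ≃ₐ[ℚ] B n, |Real.log ((g (u : B n) : B n) : ℝ)|

theorem val_ne {n : ℕ} (u : (B n)ˣ) (g : B n ≃ₐ[ℚ] B n) : ((g (u : B n) : B n) : ℝ) ≠ 0 := by
  intro h
  have h1 : g (u : B n) = 0 := Subtype.ext h
  rw [map_eq_zero_iff g g.injective] at h1
  exact u.ne_zero h1

theorem W_mul {n : ℕ} (u v : (B n)ˣ) : W (u * v) ≤ W u + W v := by
  unfold W
  rw [← Finset.sum_add_distrib]
  refine Finset.sum_le_sum fun g _ => ?_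
  rw [Units.val_mul, map_mul]
  have : ((g (u : B n) * g (v : B n) : B n) : ℝ) =
    ((g (u : B n) : B n) : ℝ) * ((g (v : B n) : B n) : ℝ) := rfl
  rw [this, Real.log_mul (val_ne u g) (val_ne v g)]
  exact abs_add_le _ _

theorem W_inv {n : ℕ} (u : (B n)ˣ) : W u⁻¹ = W u := by
  unfold W
  refine Finset.sum_congr rfl fun g _ => ?_
  rw [Units.val_inv_eq_inv_val, map_inv₀]
  have : (((g (u : B n))⁻¹ : B n) : ℝ) = ((g (u : B n) : B n) : ℝ)⁻¹ := rfl
  rw [this, Real.log_inv, abs_neg]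

theorem W_one {n : ℕ} : W (1 : (B n)ˣ) = 0 := by
  unfold W
  refine Finset.sum_eq_zero fun g _ => ?_
  rw [Units.val_one, map_one]
  have : ((1 : B n) : ℝ) = 1 := rfl
  rw [this, Real.log_one, abs_zero]

theorem W_pow {n : ℕ} (u : (B n)ˣ) (k : ℕ) : W (u ^ k) = k * W u := by
  unfold W
  rw [Finset.mul_sum]
  refine Finset.sum_congr rfl fun g _ => ?_
  rw [Units.val_pow_eq_pow_val, map_pow]
  have : (((g (u : B n)) ^ k : B n) : ℝ) = ((g (u : B n) : B n) : ℝ) ^ k := rfl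
  rw [this, Real.log_pow, abs_mul, Nat.abs_cast]

theorem W_zpow {n : ℕ} (u : (B n)ˣ) (k : ℤ) : W (u ^ k) = |k| * W u := by
  obtain ⟨m, rfl | rfl⟩ := k.eq_nat_or_neg
  · rw [zpow_natCast, W_pow, Int.cast_abs, Int.cast_natCast, Nat.abs_cast]
  · rw [zpow_neg, zpow_natCast, W_inv, W_pow, Int.cast_abs, Int.cast_neg, abs_neg,
      Int.cast_natCast, Nat.abs_cast]

theorem W_gal {n : ℕ} (h : B n ≃ₐ[ℚ] B n) (u : (B n)ˣ) : W (gal h u) = W u := by
  unfold W
  exact Fintype.sum_equiv (Equiv.mulRight h) _ _ fun g => rfl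

theorem W_prod {n : ℕ} {ι : Type*} (s : Finset ι) (f : ι → (B n)ˣ) :
    W (∏ i ∈ s, f i) ≤ ∑ i ∈ s, W (f i) := by
  classical
  induction s using Finset.induction_on with
  | empty => rw [Finset.prod_empty, Finset.sum_empty, W_one]
  | insert a s ha ih =>
    rw [Finset.prod_insert ha, Finset.sum_insert ha]
    exact (W_mul _ _).trans (by linarith)

/-- a nonzero integral element has norm at least one in absolute value -/
theorem prod_ge {n : ℕ} (y : B n) (h : IsIntegral ℤ y) (h0 : y ≠ 0) :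
    1 ≤ ∏ g : B n ≃ₐ[ℚ] B n, |((g y : B n) : ℝ)| := by
  have h1 : IsIntegral ℤ (Algebra.norm ℚ y) := Algebra.isIntegral_norm ℚ h
  obtain ⟨m, hm⟩ := IsIntegrallyClosed.isIntegral_iff.1 h1
  have h2 : Algebra.norm ℚ y ≠ 0 := Algebra.norm_ne_zero_iff.2 h0
  have h3 : m ≠ 0 := by
    rintro rfl
    rw [map_zero] at hm
    exact h2 hm.symm
  have h4 := Algebra.norm_eq_prod_automorphisms ℚ y
  have h5 : (((algebraMap ℚ (B n) (Algebra.norm ℚ y) : B n)) : ℝ) = (m : ℝ) := by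
    rw [← hm]
    have : algebraMap ℚ (B n) (algebraMap ℤ ℚ m) = (m : B n) := by
      rw [eq_intCast, map_intCast]
    rw [this]
    norm_cast
  rw [← Finset.abs_prod]
  have h6 : ∏ g : B n ≃ₐ[ℚ] B n, ((g y : B n) : ℝ) = (m : ℝ) := by
    rw [← h5, h4]
    push_cast
    rfl
  rw [h6, ← Int.cast_abs]
  exact_mod_cast Int.one_le_abs h3

theorem abs_sub_inv_le (y : ℝ) (hy : y ≠ 0) :
    |y - y⁻¹| ≤ Real.exp (3 * |Real.log y| - Real.log 4) := by
  have key : ∀ m : ℝ, 1 ≤ m → m - m⁻¹ ≤ m ^ 3 / 4 := by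
    intro m hm
    have h0 : 0 < m := by linarith
    rw [← sub_nonneg]
    have : m ^ 3 / 4 - (m - m⁻¹) = (m ^ 2 - 2) ^ 2 / (4 * m) := by field_simp; ring
    rw [this]
    positivity
  rw [Real.exp_sub, Real.exp_log (by norm_num), mul_comm 3, Real.exp_mul]
  have h3 : (Real.exp |Real.log y|) ^ (3 : ℝ) = (Real.exp |Real.log y|) ^ 3 := by
    norm_cast
  rw [h3]
  have hpos : 0 < |y| := abs_pos.2 hy
  have hred : |y - y⁻¹| = |(|y| - |y|⁻¹)| := by
    rcases abs_choice y with h | h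
    · rw [h]
    · rw [h, inv_neg, ← neg_sub', abs_neg]
  rw [hred, ← Real.log_abs y]
  rcases le_total 1 |y| with h | h
  · have h1 : |Real.log (|y|)| = Real.log |y| := abs_of_nonneg (Real.log_nonneg h)
    rw [h1, Real.exp_log hpos]
    have h2 : |y|⁻¹ ≤ |y| := (inv_le_one_of_one_le₀ h).trans h
    rw [abs_of_nonneg (by linarith)]
    exact key _ h
  · have h1 : |Real.log (|y|)| = Real.log (|y|⁻¹) := by
      rw [Real.log_inv]
      exact abs_of_nonpos (Real.log_nonpos hpos.le h)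
    have h5 : 1 ≤ |y|⁻¹ := (one_le_inv₀ hpos).2 h
    rw [h1, Real.exp_log (by positivity)]
    have h2 : |y| ≤ |y|⁻¹ := h.trans h5
    rw [abs_of_nonpos (by linarith)]
    have := key _ h5
    rw [inv_inv] at this
    linarith

theorem W_lower {n : ℕ} {u : (B n)ˣ} (hu : u ∈ En n) (h1 : u ≠ 1) (h2 : u ≠ -1) :
    cG n * Real.log 4 ≤ 3 * W u := by
  have hint : IsIntegral ℤ ((u : B n) - (u : B n)⁻¹) := by
    have := hu.2
    rw [Units.val_inv_eq_inv_val] at this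
    exact hu.1.sub this
  have hne : (u : B n) - (u : B n)⁻¹ ≠ 0 := by
    intro h
    have h3 : (u : B n) ^ 2 = 1 := by
      have h4 : (u : B n) = (u : B n)⁻¹ := sub_eq_zero.1 h
      rw [sq]
      nth_rewrite 2 [h4]
      exact mul_inv_cancel₀ u.ne_zero
    rcases sq_eq_one_iff.1 h3 with h4 | h4
    · exact h1 (Units.ext h4)
    · exact h2 (Units.ext h4)
  have h3 := prod_ge _ hint hne
  have h4 : ∏ g : B n ≃ₐ[ℚ] B n, |((g ((u : B n) - (u : B n)⁻¹) : B n) : ℝ)| ≤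
      ∏ g : B n ≃ₐ[ℚ] B n,
        Real.exp (3 * |Real.log ((g (u : B n) : B n) : ℝ)| - Real.log 4) := by
    refine Finset.prod_le_prod (fun g _ => abs_nonneg _) fun g _ => ?_
    rw [map_sub, map_inv₀]
    exact abs_sub_inv_le _ (val_ne u g)
  rw [← Real.exp_sum, Finset.sum_sub_distrib, ← Finset.mul_sum, Finset.sum_const,
    Finset.card_univ, nsmul_eq_mul] at h4
  have h5 := Real.one_le_exp_iff.1 (h3.trans h4)
  unfold W cG
  linarith

theorem z_norm (n : ℕ) (g : L n ≃ₐ[ℚ] L n) : ‖((g (z n) : L n) : ℂ)‖ = 1 := by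
  have h : ((g (z n) : L n) : ℂ) ^ (2 ^ (n + 2)) = 1 := by
    have h1 : (g (z n)) ^ (2 ^ (n + 2)) = 1 := by
      rw [← map_pow, (z_prim n).pow_eq_one, map_one]
    exact congrArg Subtype.val h1
  exact Complex.norm_eq_one_of_pow_eq_one h (by positivity)

theorem x_bound (n : ℕ) (g : B n ≃ₐ[ℚ] B n) : |((g (xB n) : B n) : ℝ)| ≤ 2 := by
  obtain ⟨g', rfl⟩ := res_surj n g
  have h1 : (((res n g' (xB n) : B n) : ℝ) : ℂ) =
      ((g' (z n) : L n) : ℂ) + ((g' (z n) : L n) : ℂ)⁻¹ := by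
    rw [← iB_coe, res_spec, iB_x, map_add, map_inv₀]
    rfl
  have h2 : ‖(((res n g' (xB n) : B n) : ℝ) : ℂ)‖ ≤ 2 := by
    rw [h1]
    refine (norm_add_le _ _).trans ?_
    rw [norm_inv, z_norm]
    norm_num
  rwa [Complex.norm_real, Real.norm_eq_abs] at h2

theorem sum_log_x (n : ℕ) :
    ∑ g : B n ≃ₐ[ℚ] B n, |Real.log ((g (xB n + 1) : B n) : ℝ)| ≤ 2 * (cG n * Real.log 3) := by
  have hne : ∀ g : B n ≃ₐ[ℚ] B n, ((g (xB n + 1) : B n) : ℝ) ≠ 0 :=
    fun g => val_ne (Units.mk0 _ (x_add n).1) g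
  have h1 := prod_ge _ (x_add n).2.1 (x_add n).1
  have h2 : 0 ≤ ∑ g : B n ≃ₐ[ℚ] B n, Real.log ((g (xB n + 1) : B n) : ℝ) := by
    have h3 : ∏ g : B n ≃ₐ[ℚ] B n, |((g (xB n + 1) : B n) : ℝ)| =
        Real.exp (∑ g : B n ≃ₐ[ℚ] B n, Real.log ((g (xB n + 1) : B n) : ℝ)) := by
      rw [Real.exp_sum]
      exact Finset.prod_congr rfl fun g _ => (Real.exp_log_eq_abs (hne g)).symm
    rw [h3] at h1
    exact Real.one_le_exp_iff.1 h1
  have h3 : ∀ g : B n ≃ₐ[ℚ] B n, |Real.log ((g (xB n + 1) : B n) : ℝ)| ≤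
      2 * Real.log 3 - Real.log ((g (xB n + 1) : B n) : ℝ) := by
    intro g
    have h4 : Real.log ((g (xB n + 1) : B n) : ℝ) ≤ Real.log 3 := by
      rw [← Real.log_abs]
      apply Real.log_le_log (abs_pos.2 (hne g))
      rw [map_add, map_one]
      have h5 : ((g (xB n) + 1 : B n) : ℝ) = ((g (xB n) : B n) : ℝ) + 1 := rfl
      rw [h5]
      have h6 := abs_le.1 (x_bound n g)
      rw [abs_le]
      constructor <;> linarith [h6.1, h6.2]
    have h5 : 0 ≤ Real.log 3 := Real.log_nonneg (by norm_num)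
    rw [abs_le]
    constructor <;> linarith
  have h4 := Finset.sum_le_sum fun (g : B n ≃ₐ[ℚ] B n) (_ : g ∈ Finset.univ) => h3 g
  rw [Finset.sum_sub_distrib, Finset.sum_const, Finset.card_univ, nsmul_eq_mul] at h4
  unfold cG
  linarith

theorem W_eps {n : ℕ} (hn : 1 ≤ n) : W (eps n) ≤ 4 * (cG n * Real.log 3) := by
  have hne : ∀ g : B n ≃ₐ[ℚ] B n, ((g (xB n + 1) : B n) : ℝ) ≠ 0 :=
    fun g => val_ne (Units.mk0 _ (x_add n).1) g
  have hne' : ∀ g : B n ≃ₐ[ℚ] B n, ((g (xB n - 1) : B n) : ℝ) ≠ 0 :=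
    fun g => val_ne (Units.mk0 _ (x_sub n).1) g
  have h1 : ∑ g : B n ≃ₐ[ℚ] B n, |Real.log ((g (xB n - 1) : B n) : ℝ)| =
      ∑ g : B n ≃ₐ[ℚ] B n, |Real.log ((g (xB n + 1) : B n) : ℝ)| := by
    refine Fintype.sum_equiv (Equiv.mulRight (s n ^ 2 ^ (n - 1))) _ _ fun g => ?_
    have h2 : (Equiv.mulRight (s n ^ 2 ^ (n - 1)) g) (xB n + 1) = -(g (xB n - 1)) := by
      change g ((s n ^ 2 ^ (n - 1)) (xB n + 1)) = -(g (xB n - 1))
      rw [map_add, map_one, rho_x hn, ← map_neg]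
      congr 1
      ring
    rw [h2]
    have h3 : ((-(g (xB n - 1)) : B n) : ℝ) = -((g (xB n - 1) : B n) : ℝ) := rfl
    rw [h3, Real.log_neg_eq_log]
  have h2 : W (eps n) ≤ ∑ g : B n ≃ₐ[ℚ] B n, |Real.log ((g (xB n + 1) : B n) : ℝ)| +
      ∑ g : B n ≃ₐ[ℚ] B n, |Real.log ((g (xB n - 1) : B n) : ℝ)| := by
    unfold W
    rw [← Finset.sum_add_distrib]
    refine Finset.sum_le_sum fun g _ => ?_
    rw [eps_val, map_div₀]
    have h3 : ((g (xB n + 1) / g (xB n - 1) : B n) : ℝ) =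
      ((g (xB n + 1) : B n) : ℝ) / ((g (xB n - 1) : B n) : ℝ) := rfl
    rw [h3, Real.log_div (hne g) (hne' g)]
    exact abs_sub _ _
  rw [h1] at h2
  have := sum_log_x n
  linarith

end Helper62.Weber
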