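import Pool.Agent.Helper62.Weber.Act
import Pool.Agent.Helper62.Weber.Height

/-!
# Few primes of one class at one layer (MP_e74dc5_nt)
-/

set_option autoImplicit false

noncomputable section

namespace Helper62.Weber

theorem log_ineq : 12 * Real.log 3 ≤ 10 * Real.log 4 := by
  have h1 : (3 : ℝ) ^ 12 ≤ 4 ^ 10 := by norm_num
  have h2 := Real.log_le_log (by norm_num) h1
  rw [Real.log_pow, Real.log_pow] at h2
  push_cast at h2
  exact h2

theorem RE_le_En {n : ℕ} {u : (B n)ˣ} (h : u ∈ RE n) : u ∈ En n := h.1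

theorem W_ph {n r : ℕ} (hn : 1 ≤ n) (a : Fin (2 ^ (r - 1)) → ℤ) (A : ℕ)
    (hA : ∀ k, |a k| ≤ A) :
    W (ph n r a) ≤ 2 ^ (r - 1) * A * (4 * (cG n * Real.log 3)) := by
  unfold ph
  refine (W_prod _ _).trans ?_
  have h1 : ∀ k ∈ (Finset.univ : Finset (Fin (2 ^ (r - 1)))),
      W (gal (s n ^ ((k : ℕ) * 2 ^ (n - r))) (eps n) ^ a k) ≤
        A * (4 * (cG n * Real.log 3)) := by
    intro k _
    rw [W_zpow, W_gal]
    have h2 : ((|a k| : ℤ) : ℝ) ≤ A := by exact_mod_cast hA k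
    have h3 : 0 ≤ W (eps n) := Finset.sum_nonneg fun _ _ => abs_nonneg _
    exact mul_le_mul h2 (W_eps hn) h3 (Nat.cast_nonneg _)
  refine (Finset.sum_le_sum h1).trans (le_of_eq ?_)
  rw [Finset.sum_const, Finset.card_univ, Fintype.card_fin, nsmul_eq_mul]
  push_cast
  ring

/-- the bound for the product of the primes of one class -/
theorem prod_bound {n r : ℕ} (hn : 1 ≤ n) (hr : 1 ≤ r) (hrn : r ≤ n) (S : Finset ℕ)
    (hS : ∀ l ∈ S, l.Prime)
    (h : ∀ l ∈ S, ∃ a ∈ Lam (Phi n r hn) l, ¬ ∀ k, (l : ℤ) ∣ a k) :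
    ∏ l ∈ S, l ≤ (10 * 2 ^ (r - 1)) ^ 2 ^ (r - 1) := by
  set D : ℕ := 2 ^ (r - 1) with hD
  set P : ℕ := ∏ l ∈ S, l with hP
  have hD0 : 1 ≤ D := Nat.one_le_two_pow
  have hP0 : 1 ≤ P := Finset.prod_pos fun l hl => (hS l hl).pos
  -- the smallest admissible bound for the coefficients
  have hex : ∃ A : ℕ, P ^ (D - 1) < (A + 1) ^ D := by
    refine ⟨P, ?_⟩
    calc P ^ (D - 1) ≤ P ^ D := Nat.pow_le_pow_right hP0 (by omega)
      _ < (P + 1) ^ D := Nat.pow_lt_pow_left (by omega) (by omega)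
  obtain ⟨A, hA, hAmin⟩ : ∃ A : ℕ, P ^ (D - 1) < (A + 1) ^ D ∧ A ^ D ≤ P ^ (D - 1) := by
    classical
    refine ⟨Nat.find hex, Nat.find_spec hex, ?_⟩
    rcases Nat.eq_zero_or_pos (Nat.find hex) with h0 | h0
    · rw [h0, zero_pow (by omega)]
      exact Nat.zero_le _
    · have h1 := Nat.find_min hex (m := Nat.find hex - 1) (by omega)
      rw [not_lt, Nat.sub_add_cancel h0] at h1
      exact h1
  obtain ⟨a, ha0, haA, m, hm⟩ := pigeon (Phi n r hn) S hS h A hA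
  have hP0' : ((P : ℕ) : ℤ) ≠ 0 := by exact_mod_cast (by omega : P ≠ 0)
  -- the unit is not trivial
  have hne : vl m ≠ 1 ∧ vl m ≠ -1 := by
    have h2 : ∀ w : (B n)ˣ, w ^ 2 = 1 → vl m ≠ w := by
      intro w hw hmw
      apply Phi_ne hn hr hrn a ha0 2 two_ne_zero
      apply vl_inj
      rw [hm, vl_zsmul, vl_zsmul, hmw, vl_zero, zpow_natCast, zpow_ofNat, ← pow_mul, mul_comm,
        pow_mul, hw, one_pow]
    exact ⟨h2 1 (one_pow 2), h2 (-1) (by rw [neg_one_sq])⟩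
  have h3 := W_lower (RE_le_En (vl_mem m)) hne.1 hne.2
  have h4 : W (ph n r a) = P * W (vl m) := by
    rw [← vl_Phi n r hn a, hm, vl_zsmul, W_zpow, Int.cast_abs, Int.cast_natCast, Nat.abs_cast]
  have h5 := W_ph (n := n) (r := r) hn a A haA
  have hc := cG_pos n
  have hlog4 : 0 < Real.log 4 := Real.log_pos (by norm_num)
  have hlog := log_ineq
  -- P ≤ 10 D A
  have h6 : (P : ℝ) ≤ 10 * D * A := by
    have h7 : (P : ℝ) * (cG n * Real.log 4) ≤ 10 * D * A * (cG n * Real.log 4) := by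
      calc (P : ℝ) * (cG n * Real.log 4) ≤ P * (3 * W (vl m)) :=
            mul_le_mul_of_nonneg_left h3 (Nat.cast_nonneg _)
        _ = 3 * W (ph n r a) := by rw [h4]; ring
        _ ≤ 3 * (2 ^ (r - 1) * A * (4 * (cG n * Real.log 3))) :=
            mul_le_mul_of_nonneg_left h5 (by norm_num)
        _ = D * A * cG n * (12 * Real.log 3) := by rw [hD]; push_cast; ring
        _ ≤ D * A * cG n * (10 * Real.log 4) :=
            mul_le_mul_of_nonneg_left hlog (by positivity)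
        _ = 10 * D * A * (cG n * Real.log 4) := by ring
    exact le_of_mul_le_mul_right h7 (by positivity)
  have h7 : P ≤ 10 * D * A := by exact_mod_cast h6
  have h8 : P * P ^ (D - 1) ≤ (10 * D) ^ D * P ^ (D - 1) := by
    calc P * P ^ (D - 1) = P ^ D := by
          rw [← pow_succ', Nat.sub_add_cancel hD0]
      _ ≤ (10 * D * A) ^ D := Nat.pow_le_pow_left h7 D
      _ = (10 * D) ^ D * A ^ D := mul_pow _ _ _
      _ ≤ (10 * D) ^ D * P ^ (D - 1) := Nat.mul_le_mul_left _ hAmin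
  exact Nat.le_of_mul_le_mul_right h8 (Nat.pow_pos (by omega))

end Helper62.Weber
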