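import Pool.Agent.Helper62.Weber.Layer
import Pool.Agent.Helper62.Weber.Bound

/-!
# Counting the exceptional primes (MP_e74dc5_nt)
-/

set_option autoImplicit false

open Polynomial

noncomputable section

namespace Helper62.Weber

/-- the 2-adic class of an odd number -/
def Cls (t l : ℕ) : Prop := ∃ c : ℕ, Odd c ∧ l ^ 2 = 1 + 2 ^ t * c

theorem exists_cls {l : ℕ} (hl : l.Prime) (ho : Odd l) : ∃ t, 3 ≤ t ∧ Cls t l := by
  obtain ⟨k, rfl⟩ := ho
  have h1 : (2 * k + 1) ^ 2 = 1 + 4 * (k * (k + 1)) := by ring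
  have hk : 0 < k := by
    rcases Nat.eq_zero_or_pos k with h | h
    · subst h
      exact absurd hl (by decide)
    · exact h
  obtain ⟨j, hj⟩ : 2 ∣ k * (k + 1) := (Nat.even_mul_succ_self k).two_dvd
  have hj0 : j ≠ 0 := by
    rintro rfl
    have : 0 < k * (k + 1) := Nat.mul_pos hk (Nat.succ_pos k)
    omega
  obtain ⟨e, c, hc, hjc⟩ := Nat.exists_eq_two_pow_mul_odd hj0
  exact ⟨e + 3, by omega, c, hc, by rw [h1, hj, hjc]; ring⟩

theorem cls_dvd {t l : ℕ} (ht : 3 ≤ t) (ho : Odd l) (h : Cls t l) :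
    2 ^ (t - 1) ∣ l - 1 ∨ 2 ^ (t - 1) ∣ l + 1 := by
  obtain ⟨k, rfl⟩ := ho
  obtain ⟨c, -, hc⟩ := h
  obtain ⟨s, rfl⟩ : ∃ s, t = s + 2 := ⟨t - 2, by omega⟩
  have h1 : k * (k + 1) = 2 ^ s * c := by
    have h2 : 4 * (k * (k + 1)) = 4 * (2 ^ s * c) := by
      have h3 : 2 ^ (s + 2) = 4 * 2 ^ s := by rw [pow_add]; ring
      rw [h3] at hc
      nlinarith
    omega
  have h2 : 2 ^ s ∣ k * (k + 1) := ⟨c, h1⟩
  have e1 : s + 2 - 1 = s + 1 := by omega
  rw [e1, pow_succ']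
  rcases Nat.even_or_odd k with hk | hk
  · left
    have h3 : Nat.Coprime (2 ^ s) (k + 1) :=
      Nat.Coprime.pow_left s (Nat.coprime_two_left.2 hk.add_one)
    have h4 : 2 ^ s ∣ k := h3.dvd_of_dvd_mul_right h2
    have e2 : 2 * k + 1 - 1 = 2 * k := by omega
    rw [e2]
    exact Nat.mul_dvd_mul_left 2 h4
  · right
    have h3 : Nat.Coprime (2 ^ s) k := Nat.Coprime.pow_left s (Nat.coprime_two_left.2 hk)
    have h4 : 2 ^ s ∣ k + 1 := h3.dvd_of_dvd_mul_left h2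
    have e2 : 2 * k + 1 + 1 = 2 * (k + 1) := by omega
    rw [e2]
    exact Nat.mul_dvd_mul_left 2 h4

theorem cls_le {t l : ℕ} (ht : 3 ≤ t) (hl : l.Prime) (ho : Odd l) (h : Cls t l) :
    2 ^ (t - 2) ≤ l := by
  have h1 := hl.two_le
  have h2 : 2 ^ (t - 1) ≤ l + 1 := by
    rcases cls_dvd ht ho h with h3 | h3
    · have := Nat.le_of_dvd (by omega) h3
      omega
    · exact Nat.le_of_dvd (by omega) h3
  have h3 : 2 ^ (t - 1) = 2 * 2 ^ (t - 2) := by
    rw [← pow_succ']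
    congr 1
    omega
  have h4 : 0 < 2 ^ (t - 2) := Nat.pow_pos (by norm_num)
  omega

theorem nontriv {l n t : ℕ} (hn : 1 ≤ n) (ht : 3 ≤ t) (hl : l.Prime) (ho : Odd l) (h : Cls t l)
    (hb : Bad l n) : ∃ a ∈ Lam (Phi n (min n t) hn) l, ¬ ∀ k, (l : ℤ) ∣ a k := by
  obtain ⟨c, hc, he⟩ := h
  exact badPhi hn hl ho ht hc he hb

theorem card_S {n t : ℕ} (hn : 1 ≤ n) (ht : 3 ≤ t) (S : Finset ℕ)
    (hS : ∀ l ∈ S, l.Prime ∧ Odd l ∧ Cls t l ∧ Bad l n) : S.card ≤ 3 * 2 ^ t := by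
  have hr1 : 1 ≤ min n t := le_min hn (by omega)
  have hrn : min n t ≤ n := min_le_left _ _
  have hrt : min n t ≤ t := min_le_right _ _
  have h1 : ∏ l ∈ S, l ≤ (10 * 2 ^ (min n t - 1)) ^ 2 ^ (min n t - 1) :=
    prod_bound hn hr1 hrn S (fun l hl => (hS l hl).1) (fun l hl =>
      nontriv hn ht (hS l hl).1 (hS l hl).2.1 (hS l hl).2.2.1 (hS l hl).2.2.2)
  have h2 : (2 ^ (t - 2)) ^ S.card ≤ ∏ l ∈ S, l :=
    Finset.pow_card_le_prod _ _ _ (fun l hl => cls_le ht (hS l hl).1 (hS l hl).2.1 (hS l hl).2.2.1)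
  have h3 : (10 * 2 ^ (min n t - 1)) ^ 2 ^ (min n t - 1) ≤ 2 ^ ((t + 3) * 2 ^ (t - 1)) := by
    have h4 : 10 * 2 ^ (min n t - 1) ≤ 2 ^ (t + 3) := by
      calc 10 * 2 ^ (min n t - 1) ≤ 2 ^ 4 * 2 ^ (t - 1) :=
            Nat.mul_le_mul (by norm_num) (Nat.pow_le_pow_right (by norm_num) (by omega))
        _ = 2 ^ (t + 3) := by rw [← pow_add]; congr 1; omega
    calc (10 * 2 ^ (min n t - 1)) ^ 2 ^ (min n t - 1) ≤ (2 ^ (t + 3)) ^ 2 ^ (min n t - 1) :=
          Nat.pow_le_pow_left h4 _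
      _ ≤ (2 ^ (t + 3)) ^ 2 ^ (t - 1) :=
          Nat.pow_le_pow_right (Nat.pow_pos (by norm_num))
            (Nat.pow_le_pow_right (by norm_num) (by omega))
      _ = 2 ^ ((t + 3) * 2 ^ (t - 1)) := (pow_mul _ _ _).symm
  have h5 : 2 ^ ((t - 2) * S.card) ≤ 2 ^ ((t + 3) * 2 ^ (t - 1)) := by
    rw [pow_mul]
    exact h2.trans (h1.trans h3)
  have h6 : (t - 2) * S.card ≤ (t + 3) * 2 ^ (t - 1) :=
    (Nat.pow_le_pow_iff_right (by norm_num)).1 h5
  have h7 : (t + 3) * 2 ^ (t - 1) ≤ (t - 2) * (6 * 2 ^ (t - 1)) := by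
    rw [← mul_assoc]
    exact Nat.mul_le_mul_right _ (by omega)
  have h8 : S.card ≤ 6 * 2 ^ (t - 1) := Nat.le_of_mul_le_mul_left (h6.trans h7) (by omega)
  have h9 : 2 ^ t = 2 * 2 ^ (t - 1) := by
    rw [← pow_succ']
    congr 1
    omega
  omega

theorem lev {n t l M : ℕ} (hn : 1 ≤ n) (ht : 3 ≤ t) (hl : l.Prime) (ho : Odd l) (h : Cls t l)
    (hb : Bad l n) (hM : l < 2 ^ M) : n < 2 * t + 2 * M := by
  rcases lt_or_ge n t with hnt | hnt
  · omega
  by_contra hge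
  rw [not_lt] at hge
  have h1 := nontriv hn ht hl ho h hb
  rw [min_eq_right hnt] at h1
  refine layer hn hl ho (by omega) hnt ?_ h1
  calc 2 ^ (t + 1) * l ^ 2 ≤ 2 ^ (t + 1) * (2 ^ M) ^ 2 :=
        Nat.mul_le_mul_left _ (Nat.pow_le_pow_left hM.le 2)
    _ = 2 ^ (t + 1 + 2 * M) := by rw [← pow_mul, ← pow_add]; congr 1; omega
    _ ≤ 2 ^ (n + 2 - t) := Nat.pow_le_pow_right (by norm_num) (by omega)

theorem sum_pow_le (T : ℕ) : ∑ t ∈ Finset.range (T + 1), 2 ^ t ≤ 2 ^ (T + 1) := by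
  induction T with
  | zero => decide
  | succ T ih => rw [Finset.sum_range_succ, pow_succ 2 (T + 1)]; omega

theorem count_low {T M : ℕ} (S : Finset ℕ)
    (hS : ∀ l ∈ S, l.Prime ∧ Odd l ∧ l < 2 ^ M ∧ (∃ n, 1 ≤ n ∧ Bad l n) ∧
      ∃ t, 3 ≤ t ∧ t ≤ T ∧ Cls t l) : S.card ≤ 12 * (T + M) * 2 ^ T := by
  classical
  have h1 : S ⊆ (Finset.Icc 3 T).biUnion (fun t => (Finset.range (2 * T + 2 * M)).biUnion
      (fun n => S.filter (fun l => 1 ≤ n ∧ Cls t l ∧ Bad l n))) := by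
    intro l hl
    obtain ⟨hp, ho, hM, ⟨n, hn, hb⟩, t, ht, htT, hc⟩ := hS l hl
    rw [Finset.mem_biUnion]
    refine ⟨t, Finset.mem_Icc.2 ⟨ht, htT⟩, ?_⟩
    rw [Finset.mem_biUnion]
    refine ⟨n, Finset.mem_range.2 ?_, Finset.mem_filter.2 ⟨hl, hn, hc, hb⟩⟩
    have := lev hn ht hp ho hc hb hM
    omega
  have h2 : ∀ t ∈ Finset.Icc 3 T, ((Finset.range (2 * T + 2 * M)).biUnion
      (fun n => S.filter (fun l => 1 ≤ n ∧ Cls t l ∧ Bad l n))).card ≤
      (2 * T + 2 * M) * (3 * 2 ^ t) := by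
    intro t ht
    rw [Finset.mem_Icc] at ht
    refine Finset.card_biUnion_le.trans ?_
    refine (Finset.sum_le_card_nsmul _ _ (3 * 2 ^ t) ?_).trans ?_
    · intro n _
      rcases Nat.eq_zero_or_pos n with h0 | h0
      · have : S.filter (fun l => 1 ≤ n ∧ Cls t l ∧ Bad l n) = ∅ := by
          rw [Finset.filter_eq_empty_iff]
          rintro l - ⟨h3, -⟩
          omega
        rw [this, Finset.card_empty]
        exact Nat.zero_le _
      · apply card_S h0 ht.1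
        intro l hl
        rw [Finset.mem_filter] at hl
        exact ⟨(hS l hl.1).1, (hS l hl.1).2.1, hl.2.2.1, hl.2.2.2⟩
    · rw [Finset.card_range, smul_eq_mul]
  calc S.card ≤ _ := Finset.card_le_card h1
    _ ≤ ∑ t ∈ Finset.Icc 3 T, _ := Finset.card_biUnion_le
    _ ≤ ∑ t ∈ Finset.Icc 3 T, (2 * T + 2 * M) * (3 * 2 ^ t) := Finset.sum_le_sum h2
    _ ≤ ∑ t ∈ Finset.range (T + 1), (2 * T + 2 * M) * (3 * 2 ^ t) := by
        apply Finset.sum_le_sum_of_subset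
        intro t ht
        rw [Finset.mem_Icc] at ht
        rw [Finset.mem_range]
        omega
    _ = (2 * T + 2 * M) * (3 * ∑ t ∈ Finset.range (T + 1), 2 ^ t) := by
        rw [Finset.mul_sum, Finset.mul_sum]
    _ ≤ (2 * T + 2 * M) * (3 * 2 ^ (T + 1)) :=
        Nat.mul_le_mul_left _ (Nat.mul_le_mul_left _ (sum_pow_le T))
    _ = 12 * (T + M) * 2 ^ T := by rw [pow_succ]; ring

theorem count_high {T x : ℕ} (S : Finset ℕ)
    (hS : ∀ l ∈ S, 1 < l ∧ l ≤ x ∧ (2 ^ T ∣ l - 1 ∨ 2 ^ T ∣ l + 1)) :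
    S.card ≤ 2 * (x / 2 ^ T + 1) := by
  classical
  have hT : 0 < 2 ^ T := Nat.pow_pos (by norm_num)
  have h1 : S ⊆ (Finset.range (x / 2 ^ T + 1)).image (fun k => 2 ^ T * k + 1) ∪
      (Finset.range (x / 2 ^ T + 1)).image (fun k => 2 ^ T * (k + 1) - 1) := by
    intro l hl
    obtain ⟨h2, h3, h4⟩ := hS l hl
    rw [Finset.mem_union, Finset.mem_image, Finset.mem_image]
    rcases h4 with ⟨k, hk⟩ | ⟨k, hk⟩
    · left
      refine ⟨k, Finset.mem_range.2 ?_, by omega⟩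
      have : k ≤ x / 2 ^ T := by
        rw [Nat.le_div_iff_mul_le hT, mul_comm]
        omega
      omega
    · right
      have hk0 : 0 < k := by
        rcases Nat.eq_zero_or_pos k with h | h
        · subst h
          omega
        · exact h
      obtain ⟨j, rfl⟩ : ∃ j, k = j + 1 := ⟨k - 1, by omega⟩
      refine ⟨j, Finset.mem_range.2 ?_, by omega⟩
      have : j ≤ x / 2 ^ T := by
        rw [Nat.le_div_iff_mul_le hT, mul_comm]
        rw [mul_add] at hk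
        omega
      omega
  refine (Finset.card_le_card h1).trans ((Finset.card_union_le _ _).trans ?_)
  have h2 := Finset.card_image_le (s := Finset.range (x / 2 ^ T + 1)) (f := fun k => 2 ^ T * k + 1)
  have h3 := Finset.card_image_le (s := Finset.range (x / 2 ^ T + 1))
    (f := fun k => 2 ^ T * (k + 1) - 1)
  rw [Finset.card_range] at h2 h3
  omega

/-- combinatorial form -/
theorem count_nat {T M x : ℕ} (hM : x < 2 ^ M) (S : Finset ℕ)
    (hS : ∀ l ∈ S, l.Prime ∧ l ≤ x ∧ ∃ n, 1 ≤ n ∧ Bad l n) :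
    S.card ≤ 12 * (T + M) * 2 ^ T + 2 * (x / 2 ^ T + 1) + 1 := by
  classical
  set S1 := S.filter (fun l => Odd l ∧ ∃ t, 3 ≤ t ∧ t ≤ T ∧ Cls t l) with hS1
  set S2 := S.filter (fun l => Odd l ∧ ∃ t, 3 ≤ t ∧ T < t ∧ Cls t l) with hS2
  have h1 : S ⊆ S1 ∪ S2 ∪ {2} := by
    intro l hl
    rw [Finset.mem_union, Finset.mem_union, Finset.mem_singleton, hS1, hS2, Finset.mem_filter,
      Finset.mem_filter]
    rcases (hS l hl).1.eq_two_or_odd' with h | h
    · exact Or.inr h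
    · left
      obtain ⟨t, ht, hc⟩ := exists_cls (hS l hl).1 h
      rcases le_or_gt t T with htT | htT
      · exact Or.inl ⟨hl, h, t, ht, htT, hc⟩
      · exact Or.inr ⟨hl, h, t, ht, htT, hc⟩
  have h2 : S1.card ≤ 12 * (T + M) * 2 ^ T := by
    apply count_low
    intro l hl
    rw [hS1, Finset.mem_filter] at hl
    exact ⟨(hS l hl.1).1, hl.2.1, lt_of_le_of_lt (hS l hl.1).2.1 hM, (hS l hl.1).2.2, hl.2.2⟩
  have h3 : S2.card ≤ 2 * (x / 2 ^ T + 1) := by
    apply count_high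
    intro l hl
    rw [hS2, Finset.mem_filter] at hl
    obtain ⟨hlS, ho, t, ht, htT, hc⟩ := hl
    refine ⟨(hS l hlS).1.one_lt, (hS l hlS).2.1, ?_⟩
    have h4 : 2 ^ T ∣ 2 ^ (t - 1) := pow_dvd_pow 2 (by omega)
    rcases cls_dvd ht ho hc with h5 | h5
    · exact Or.inl (h4.trans h5)
    · exact Or.inr (h4.trans h5)
  calc S.card ≤ (S1 ∪ S2 ∪ {2}).card := Finset.card_le_card h1
    _ ≤ (S1 ∪ S2).card + 1 := (Finset.card_union_le _ _).trans (by rw [Finset.card_singleton])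
    _ ≤ S1.card + S2.card + 1 := Nat.add_le_add_right (Finset.card_union_le _ _) 1
    _ ≤ _ := by omega

/-- the number of exceptional primes up to `x` -/
theorem count_real {x : ℕ} (hx : 2 ≤ x) (S : Finset ℕ)
    (hS : ∀ l ∈ S, l.Prime ∧ l ≤ x ∧ ∃ n, 1 ≤ n ∧ Bad l n) :
    (S.card : ℝ) ≤ 54 * Real.sqrt (x * Real.log x) := by
  set M := Nat.log 2 x + 1 with hMd
  have hM : x < 2 ^ M := Nat.lt_pow_succ_log_self (by norm_num) x
  have hM1 : 1 ≤ M := by omega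
  have hMx : M ≤ x := Nat.log_lt_self 2 (by omega)
  set y := Nat.sqrt (x / M) with hy
  have hy1 : 1 ≤ y := by
    rw [hy, Nat.le_sqrt]
    rw [Nat.le_div_iff_mul_le (by omega)]
    omega
  set T := Nat.log 2 y with hT
  have hT1 : 2 ^ T ≤ y := Nat.pow_log_le_self 2 (by omega)
  have hT2 : y < 2 ^ (T + 1) := Nat.lt_pow_succ_log_self (by norm_num) y
  have hyx : y * y * M ≤ x := by
    have h1 : y * y ≤ x / M := Nat.sqrt_le (x / M)
    exact (Nat.mul_le_mul_right M h1).trans (Nat.div_mul_le_self x M)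
  have hTM : T ≤ M := by
    have h1 : y ≤ x := by nlinarith
    have h2 : 2 ^ T < 2 ^ M := lt_of_le_of_lt (hT1.trans h1) hM
    exact ((Nat.pow_lt_pow_iff_right (by norm_num)).1 h2).le
  have hxy : x < (y + 1) * (y + 1) * M := by
    have h1 : x / M < (y + 1) * (y + 1) := Nat.sqrt_lt'.1 (lt_add_one y) |>.trans_eq (by ring)
    exact (Nat.div_lt_iff_lt_mul (by omega)).1 h1
  have hc := count_nat (T := T) hM S hS
  -- real inequalities
  have hMr : (1 : ℝ) ≤ M := by exact_mod_cast hM1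
  have hxr : (2 : ℝ) ≤ x := by exact_mod_cast hx
  set w := Real.sqrt (x * M) with hw
  have hw2 : w * w = x * M := Real.mul_self_sqrt (by positivity)
  have hw0 : 0 ≤ w := Real.sqrt_nonneg _
  have hw1 : 1 ≤ w := by
    rw [hw, Real.one_le_sqrt]
    nlinarith
  set Q : ℝ := (2 : ℝ) ^ T with hQ
  have hQ0 : 0 < Q := by positivity
  have hQM : M * Q ≤ w := by
    have h1 : (M * Q) * (M * Q) ≤ w * w := by
      rw [hw2]
      have h2 : Q ≤ y := by
        rw [hQ]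
        exact_mod_cast hT1
      have h3 : (y : ℝ) * y * M ≤ x := by exact_mod_cast hyx
      have h4 : Q * Q ≤ y * y := mul_self_le_mul_self hQ0.le h2
      have h5 : Q * Q * M ≤ x := (mul_le_mul_of_nonneg_right h4 (by positivity)).trans h3
      calc (M * Q) * (M * Q) = (Q * Q * M) * M := by ring
        _ ≤ x * M := mul_le_mul_of_nonneg_right h5 (by positivity)
    exact abs_le_of_sq_le_sq' (by nlinarith) hw0 |>.2
  have hxQ : x / Q ≤ 2 * w := by
    rw [div_le_iff₀ hQ0]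
    have h2 : (y : ℝ) + 1 ≤ 2 * Q := by
      have : y + 1 ≤ 2 * 2 ^ T := by rw [← pow_succ']; omega
      rw [hQ]
      exact_mod_cast this
    have h3 : (x : ℝ) ≤ (y + 1) * (y + 1) * M := by exact_mod_cast hxy.le
    have h4 : ((y : ℝ) + 1) * (y + 1) ≤ (2 * Q) * (2 * Q) := mul_self_le_mul_self (by positivity) h2
    have h5 : (x : ℝ) ≤ (2 * Q) * (2 * Q) * M :=
      h3.trans (mul_le_mul_of_nonneg_right h4 (by positivity))
    have h6 : (x : ℝ) * x ≤ (2 * w * Q) * (2 * w * Q) := by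
      calc (x : ℝ) * x ≤ x * ((2 * Q) * (2 * Q) * M) := mul_le_mul_of_nonneg_left h5 (by positivity)
        _ = (x * M) * (4 * Q * Q) := by ring
        _ = (w * w) * (4 * Q * Q) := by rw [hw2]
        _ = (2 * w * Q) * (2 * w * Q) := by ring
    exact abs_le_of_sq_le_sq' (by nlinarith) (by positivity) |>.2
  have h1 : (S.card : ℝ) ≤ 31 * w := by
    have h2 : (S.card : ℝ) ≤ 12 * (T + M) * Q + 2 * (x / Q + 1) + 1 := by
      have h3 : ((x / 2 ^ T : ℕ) : ℝ) ≤ x / Q := by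
        rw [hQ]
        exact_mod_cast Nat.cast_div_le (α := ℝ) (m := x) (n := 2 ^ T)
      have h4 : (S.card : ℝ) ≤ 12 * (T + M) * Q + 2 * (((x / 2 ^ T : ℕ) : ℝ) + 1) + 1 := by
        rw [hQ]
        exact_mod_cast hc
      linarith
    have hTMr : (T : ℝ) ≤ M := by exact_mod_cast hTM
    have h5 : 12 * ((T : ℝ) + M) * Q ≤ 24 * (M * Q) := by nlinarith
    linarith
  have hlog : (M : ℝ) ≤ 3 * Real.log x := by
    have h2 : (Nat.log 2 x : ℝ) * Real.log 2 ≤ Real.log x := by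
      rw [← Real.log_pow]
      apply Real.log_le_log (by positivity)
      exact_mod_cast Nat.pow_log_le_self 2 (by omega)
    have h3 : Real.log 2 ≤ Real.log x := Real.log_le_log (by norm_num) hxr
    have h4 := Real.log_two_gt_d9
    have h5 : (M : ℝ) = Nat.log 2 x + 1 := by rw [hMd]; push_cast; ring
    have h6 : (M : ℝ) * Real.log 2 ≤ 2 * Real.log x := by rw [h5]; linarith
    nlinarith
  have hfin : w ≤ Real.sqrt 3 * Real.sqrt (x * Real.log x) := by
    rw [hw, ← Real.sqrt_mul (by norm_num)]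
    apply Real.sqrt_le_sqrt
    calc (x : ℝ) * M ≤ x * (3 * Real.log x) := mul_le_mul_of_nonneg_left hlog (by positivity)
      _ = 3 * (x * Real.log x) := by ring
  have h3 : Real.sqrt 3 ≤ 54 / 31 := by
    rw [Real.sqrt_le_left (by norm_num)]
    norm_num
  calc (S.card : ℝ) ≤ 31 * w := h1
    _ ≤ 31 * (Real.sqrt 3 * Real.sqrt (x * Real.log x)) := by linarith
    _ ≤ 31 * (54 / 31 * Real.sqrt (x * Real.log x)) := by
        have := mul_le_mul_of_nonneg_right h3 (Real.sqrt_nonneg (x * Real.log x))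
        linarith
    _ = 54 * Real.sqrt (x * Real.log x) := by ring

end Helper62.Weber
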