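import Pool.Agent.Helper62.Weber.Count

/-!
# The relative units and the cyclotomic units inside `ℝ` (MP_e74dc5_nt)
-/

set_option autoImplicit false

open Polynomial IntermediateField

noncomputable section

namespace Helper62.Weber

/-- `RE_n^+`, inside `ℝˣ`: the units `u` of the ring of integers of `𝔹_n = ℚ(X_n)` whose relative
norm `u · τ(u)` is `1`; here `u = p(X_n)` with `p ∈ ℚ[X]` and `τ(u) = p(-X_n)` -/
def relUnits (n : ℕ) : Subgroup ℝˣ where
  carrier := {u | IsIntegral ℤ (u : ℝ) ∧ IsIntegral ℤ (u : ℝ)⁻¹ ∧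
    ∃ p : ℚ[X], (u : ℝ) = aeval (XR n) p ∧ aeval (XR n) p * aeval (-XR n) p = 1}
  one_mem' := by
    refine ⟨?_, ?_, 1, ?_, ?_⟩
    · rw [Units.val_one]; exact isIntegral_one
    · rw [Units.val_one, inv_one]; exact isIntegral_one
    · rw [Units.val_one, map_one]
    · rw [map_one, map_one, one_mul]
  mul_mem' := by
    rintro u v ⟨h1, h2, p, h3, h4⟩ ⟨k1, k2, q, k3, k4⟩
    refine ⟨?_, ?_, p * q, ?_, ?_⟩
    · rw [Units.val_mul]; exact h1.mul k1
    · rw [Units.val_mul, mul_inv]; exact h2.mul k2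
    · rw [Units.val_mul, map_mul, h3, k3]
    · rw [map_mul, map_mul]
      calc aeval (XR n) p * aeval (XR n) q * (aeval (-XR n) p * aeval (-XR n) q) =
          (aeval (XR n) p * aeval (-XR n) p) * (aeval (XR n) q * aeval (-XR n) q) := by ring
        _ = 1 := by rw [h4, k4, one_mul]
  inv_mem' := by
    rintro u ⟨h1, h2, p, h3, h4⟩
    have e1 : aeval (XR n) (p.comp (-X)) = aeval (-XR n) p := by
      rw [aeval_comp, map_neg, aeval_X]
    have e2 : aeval (-XR n) (p.comp (-X)) = aeval (XR n) p := by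
      rw [aeval_comp, map_neg, aeval_X, neg_neg]
    refine ⟨?_, ?_, p.comp (-X), ?_, ?_⟩
    · rw [Units.val_inv_eq_inv_val]; exact h2
    · rw [Units.val_inv_eq_inv_val, inv_inv]; exact h1
    · rw [Units.val_inv_eq_inv_val, e1, h3]
      exact inv_eq_of_mul_eq_one_right h4
    · rw [e1, e2, mul_comm]
      exact h4

/-- `⟨-1, ε_n⟩` as a Galois module, inside `ℝˣ`: the conjugates of `X_n` are the numbers
`2 cos (2πj/2^(n+2))`, `j` odd, so those of `ε_n = (X_n + 1) / (X_n - 1)` are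
`(2 cos (2πj/2^(n+2)) + 1) / (2 cos (2πj/2^(n+2)) - 1)` -/
def cycUnits (n : ℕ) : Subgroup ℝˣ :=
  Subgroup.closure {u | u = -1 ∨ ∃ j : ℕ, Odd j ∧
    (u : ℝ) = (2 * Real.cos (2 * Real.pi * j / 2 ^ (n + 2)) + 1) /
      (2 * Real.cos (2 * Real.pi * j / 2 ^ (n + 2)) - 1)}

/-- the embedding -/
def io (n : ℕ) : (B n)ˣ →* ℝˣ := Units.map (B n).val

theorem io_val {n : ℕ} (u : (B n)ˣ) : ((io n u : ℝˣ) : ℝ) = ((u : B n) : ℝ) := rfl

theorem io_inj {n : ℕ} {u v : (B n)ˣ} (h : io n u = io n v) : u = v := by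
  apply Units.ext
  apply Subtype.ext
  have := congrArg Units.val h
  rwa [io_val, io_val] at this

theorem cos_eq (n j : ℕ) : ((2 * Real.cos (2 * Real.pi * j / 2 ^ (n + 2)) : ℝ) : ℂ) =
    zC n ^ j + (zC n ^ j)⁻¹ := by
  rw [zC, ← Complex.exp_nat_mul, ← Complex.exp_neg]
  push_cast
  rw [Complex.cos]
  have e1 : (2 : ℂ) * Real.pi * j / 2 ^ (n + 2) * Complex.I =
      j * (2 * Real.pi * Complex.I / 2 ^ (n + 2)) := by ring
  have e2 : -(2 * Real.pi * j / 2 ^ (n + 2) : ℂ) * Complex.I =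
      -(j * (2 * Real.pi * Complex.I / 2 ^ (n + 2))) := by ring
  rw [e1, e2]
  ring

theorem aut_x {n j : ℕ} (g : B n ≃ₐ[ℚ] B n) (h : iB n (g (xB n)) = z n ^ j + (z n ^ j)⁻¹) :
    ((g (xB n) : B n) : ℝ) = 2 * Real.cos (2 * Real.pi * j / 2 ^ (n + 2)) := by
  have h1 := congrArg (fun y : L n => (y : ℂ)) h
  simp only [iB_coe] at h1
  have h2 : (((z n ^ j + (z n ^ j)⁻¹ : L n)) : ℂ) = zC n ^ j + (zC n ^ j)⁻¹ := rfl
  rw [h2, ← cos_eq] at h1
  exact_mod_cast h1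

theorem map_le (n : ℕ) : (Cn n).map (io n) ≤ cycUnits n := by
  rw [Cn, MonoidHom.map_closure, Subgroup.closure_le]
  rintro _ ⟨u, hu, rfl⟩
  apply Subgroup.subset_closure
  rcases hu with rfl | ⟨g, hg⟩
  · left
    apply Units.ext
    rw [io_val]
    simp
  · right
    obtain ⟨k, rfl⟩ := exists_pow_s n g
    refine ⟨5 ^ k, Odd.pow (by decide), ?_⟩
    have h1 : iB n ((s n ^ k) (xB n)) = z n ^ 5 ^ k + (z n ^ 5 ^ k)⁻¹ := by
      rw [iB_s, iB_x, map_add, map_inv₀, sL_pow_z]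
    have h2 := aut_x _ h1
    rw [io_val, hg, map_div₀, map_add, map_sub, map_one, ← h2]
    rfl

theorem le_map (n : ℕ) : cycUnits n ≤ (Cn n).map (io n) := by
  rw [cycUnits, Subgroup.closure_le]
  rintro u (rfl | ⟨j, hj, hu⟩)
  · refine ⟨-1, Subgroup.subset_closure (Or.inl rfl), ?_⟩
    apply Units.ext
    rw [io_val]
    simp
  · obtain ⟨g, hg⟩ := exists_aut n j hj
    have h1 : iB n (res n g (xB n)) = z n ^ j + (z n ^ j)⁻¹ := by
      rw [res_spec, iB_x, map_add, map_inv₀, hg]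
    have h2 := aut_x _ h1
    refine ⟨gal (res n g) (eps n), Subgroup.subset_closure (Or.inr ⟨res n g, ?_⟩), ?_⟩
    · rw [gal_val, eps_val]
    · apply Units.ext
      rw [io_val, gal_val, eps_val, hu, map_div₀, map_add, map_sub, map_one, ← h2]
      rfl

theorem int_coe {n : ℕ} {y : B n} (h : IsIntegral ℤ (y : ℝ)) : IsIntegral ℤ y :=
  (isIntegral_algHom_iff ((B n).val.restrictScalars ℤ) (B n).val.injective).1 h

theorem lift_rel {n : ℕ} (hn : 1 ≤ n) {u : ℝˣ} (hu : u ∈ relUnits n) :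
    ∃ v ∈ RE n, io n v = u := by
  obtain ⟨h1, h2, p, h3, h4⟩ := hu
  have e1 : ((aeval (xB n) p : B n) : ℝ) = aeval (XR n) p := by
    exact (aeval_algHom_apply (B n).val (xB n) p).symm
  have e2 : ((aeval (-xB n) p : B n) : ℝ) = aeval (-XR n) p := by
    exact (aeval_algHom_apply (B n).val (-xB n) p).symm
  have h0 : (aeval (xB n) p : B n) ≠ 0 := by
    intro h
    rw [h] at e1
    rw [← e1] at h3
    exact u.ne_zero h3
  refine ⟨Units.mk0 _ h0, ?_, ?_⟩
  · rw [mem_RE hn]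
    refine ⟨⟨?_, ?_⟩, ?_⟩
    · apply int_coe
      rw [Units.val_mk0, e1, ← h3]
      exact h1
    · apply int_coe
      rw [Units.val_inv_eq_inv_val, Units.val_mk0]
      change IsIntegral ℤ (((aeval (xB n) p : B n) : ℝ)⁻¹)
      rw [e1, ← h3]
      exact h2
    · rw [Units.val_mk0]
      have e3 : (s n ^ 2 ^ (n - 1)) (aeval (xB n) p) = aeval (-xB n) p := by
        rw [← rho_x hn]
        exact (aeval_algHom_apply ((s n ^ 2 ^ (n - 1) : B n ≃ₐ[ℚ] B n) : B n →ₐ[ℚ] B n) (xB n) p).symm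
      rw [e3]
      apply Subtype.ext
      change ((aeval (xB n) p : B n) : ℝ) * ((aeval (-xB n) p : B n) : ℝ) = 1
      rw [e1, e2]
      exact h4
  · apply Units.ext
    rw [io_val, Units.val_mk0, e1, ← h3]

theorem bad_of_real {l n : ℕ} (hn : 1 ≤ n) {u : ℝˣ} (hu : u ∈ relUnits n) (h1 : u ∉ cycUnits n)
    (h2 : u ^ l ∈ cycUnits n) : Bad l n := by
  obtain ⟨v, hv, rfl⟩ := lift_rel hn hu
  refine ⟨v, hv, fun h => h1 (map_le n ⟨v, h, rfl⟩), ?_⟩
  obtain ⟨w, hw, he⟩ := le_map n h2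
  rw [← map_pow] at he
  rw [← io_inj he]
  exact hw

end Helper62.Weber
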