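import Mathlib

/-!
# The box principle for simultaneous divisibility (MP_e74dc5_nt)
-/

set_option autoImplicit false

noncomputable section

namespace Helper62.Weber

variable {D : ℕ} {M : Type*} [AddCommGroup M] (Φ : (Fin D → ℤ) →+ M)

/-- the vectors whose image is divisible by `l` -/
def Lam (l : ℕ) : AddSubgroup (Fin D → ℤ) where
  carrier := {a | ∃ m : M, Φ a = (l : ℤ) • m}
  zero_mem' := ⟨0, by rw [map_zero, smul_zero]⟩
  add_mem' := by
    rintro a b ⟨m, hm⟩ ⟨m', hm'⟩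
    exact ⟨m + m', by rw [map_add, hm, hm', smul_add]⟩
  neg_mem' := by
    rintro a ⟨m, hm⟩
    exact ⟨-m, by rw [map_neg, hm, smul_neg]⟩

theorem mem_Lam (l : ℕ) (a : Fin D → ℤ) : a ∈ Lam Φ l ↔ ∃ m : M, Φ a = (l : ℤ) • m := Iff.rfl

/-- reduction modulo `l` -/
def red (D l : ℕ) : (Fin D → ℤ) →+ (Fin D → ZMod l) := (Int.castAddHom (ZMod l)).compLeft (Fin D)

theorem mem_ker_red (l : ℕ) (a : Fin D → ℤ) : a ∈ (red D l).ker ↔ ∀ k, (l : ℤ) ∣ a k := by
  rw [AddMonoidHom.mem_ker, funext_iff]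
  refine forall_congr' fun k => ?_
  exact ZMod.intCast_zmod_eq_zero_iff_dvd (a k) l

theorem index_ker_red (l : ℕ) [NeZero l] : (red D l).ker.index = l ^ D := by
  rw [AddSubgroup.index_ker]
  have h : Function.Surjective (red D l) := by
    intro b
    refine ⟨fun k => ((b k).cast : ℤ), ?_⟩
    funext k
    change (((b k).cast : ℤ) : ZMod l) = b k
    exact ZMod.intCast_zmod_cast (b k)
  rw [AddMonoidHom.range_eq_top.2 h, AddSubgroup.card_top, Nat.card_fun, Nat.card_zmod]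
  simp

theorem index_Lam {l : ℕ} (hl : l.Prime) (h : ∃ a ∈ Lam Φ l, ¬ ∀ k, (l : ℤ) ∣ a k) :
    (Lam Φ l).index ≠ 0 ∧ (Lam Φ l).index ≤ l ^ (D - 1) := by
  have : NeZero l := ⟨hl.ne_zero⟩
  have hle : (red D l).ker ≤ Lam Φ l := by
    intro a ha
    rw [mem_ker_red] at ha
    choose b hb using ha
    refine ⟨Φ b, ?_⟩
    have : a = (l : ℤ) • b := by
      funext k
      rw [Pi.smul_apply, smul_eq_mul]
      exact hb k
    rw [this, map_zsmul]
  have h1 := AddSubgroup.relIndex_mul_index hle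
  rw [index_ker_red] at h1
  have h2 : (red D l).ker.relIndex (Lam Φ l) ≠ 1 := by
    intro h3
    rw [AddSubgroup.relIndex_eq_one] at h3
    obtain ⟨a, ha, hna⟩ := h
    exact hna ((mem_ker_red l a).1 (h3 ha))
  obtain ⟨k, hk, hk2⟩ := (Nat.dvd_prime_pow hl).1 (Dvd.intro _ h1)
  have hk0 : k ≠ 0 := by
    rintro rfl
    exact h2 (by rw [hk2, pow_zero])
  have hpos : 0 < l ^ k := pow_pos hl.pos k
  have h4 : (Lam Φ l).index = l ^ (D - k) := by
    rw [hk2] at h1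
    have : l ^ D = l ^ k * l ^ (D - k) := by rw [← pow_add]; congr 1; omega
    rw [this] at h1
    exact Nat.eq_of_mul_eq_mul_left hpos h1
  rw [h4]
  exact ⟨(pow_pos hl.pos _).ne', Nat.pow_le_pow_right hl.pos (by omega)⟩

theorem div_prod (S : Finset ℕ) (hS : ∀ l ∈ S, l.Prime) (x : M)
    (h : ∀ l ∈ S, ∃ m : M, x = (l : ℤ) • m) : ∃ m : M, x = ((∏ l ∈ S, l : ℕ) : ℤ) • m := by
  induction S using Finset.induction_on with
  | empty => exact ⟨x, by simp⟩
  | insert p T hp ih =>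
    obtain ⟨m, hm⟩ := ih (fun l hl => hS l (Finset.mem_insert_of_mem hl))
      (fun l hl => h l (Finset.mem_insert_of_mem hl))
    obtain ⟨m', hm'⟩ := h p (Finset.mem_insert_self p T)
    have hcop : IsCoprime (p : ℤ) ((∏ l ∈ T, l : ℕ) : ℤ) := by
      rw [Nat.isCoprime_iff_coprime]
      refine Nat.Coprime.prod_right fun l hl => ?_
      have h1 := hS p (Finset.mem_insert_self p T)
      have h2 := hS l (Finset.mem_insert_of_mem hl)
      rw [Nat.coprime_primes h1 h2]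
      rintro rfl
      exact hp hl
    obtain ⟨u, v, huv⟩ := hcop
    refine ⟨u • m + v • m', ?_⟩
    rw [Finset.prod_insert hp]
    have e1 : x = (u * p + v * ((∏ l ∈ T, l : ℕ) : ℤ)) • x := by rw [huv, one_smul]
    have e2 : (u * (p : ℤ)) • x = ((p * ∏ l ∈ T, l : ℕ) : ℤ) • (u • m) := by
      conv_lhs => rw [hm]
      rw [smul_smul, smul_smul]
      congr 1
      push_cast
      ring
    have e3 : (v * ((∏ l ∈ T, l : ℕ) : ℤ)) • x = ((p * ∏ l ∈ T, l : ℕ) : ℤ) • (v • m') := by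
      conv_lhs => rw [hm']
      rw [smul_smul, smul_smul]
      congr 1
      push_cast
      ring
    rw [smul_add, ← e2, ← e3, ← add_smul]
    exact e1

theorem pigeon (S : Finset ℕ) (hS : ∀ l ∈ S, l.Prime)
    (h : ∀ l ∈ S, ∃ a ∈ Lam Φ l, ¬ ∀ k, (l : ℤ) ∣ a k) (A : ℕ)
    (hA : (∏ l ∈ S, l) ^ (D - 1) < (A + 1) ^ D) :
    ∃ a : Fin D → ℤ, a ≠ 0 ∧ (∀ k, |a k| ≤ A) ∧ ∃ m : M, Φ a = ((∏ l ∈ S, l : ℕ) : ℤ) • m := by
  set Λ : AddSubgroup (Fin D → ℤ) := ⨅ l : S, Lam Φ (l : ℕ) with hΛ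
  have h0 : Λ.index ≠ 0 := AddSubgroup.index_iInf_ne_zero fun l : S =>
    (index_Lam Φ (hS l l.2) (h l l.2)).1
  have h1 : Λ.index ≤ (∏ l ∈ S, l) ^ (D - 1) := by
    refine (AddSubgroup.index_iInf_le fun l : S => Lam Φ (l : ℕ)).trans ?_
    refine (Finset.prod_le_prod' fun (l : S) _ => (index_Lam Φ (hS l l.2) (h l l.2)).2).trans ?_
    rw [Finset.prod_pow, Finset.prod_coe_sort S (fun l => l)]
  have : Λ.FiniteIndex := ⟨h0⟩
  have : Finite ((Fin D → ℤ) ⧸ Λ) := AddSubgroup.finite_quotient_of_finiteIndex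
  have : Fintype ((Fin D → ℤ) ⧸ Λ) := Fintype.ofFinite _
  have h2 : Fintype.card ((Fin D → ℤ) ⧸ Λ) = Λ.index := by
    rw [← Nat.card_eq_fintype_card]; rfl
  obtain ⟨x, y, hxy, hf⟩ := Fintype.exists_ne_map_eq_of_card_lt
    (fun b : Fin D → Fin (A + 1) => (QuotientAddGroup.mk (fun k => ((b k : ℕ) : ℤ)) :
      (Fin D → ℤ) ⧸ Λ)) (by
      rw [h2, Fintype.card_fun, Fintype.card_fin, Fintype.card_fin]
      exact h1.trans_lt hA)
  rw [QuotientAddGroup.eq] at hf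
  refine ⟨-(fun k => ((x k : ℕ) : ℤ)) + (fun k => ((y k : ℕ) : ℤ)), ?_, ?_, ?_⟩
  · intro h3
    apply hxy
    funext k
    have h4 := congrFun h3 k
    simp only [Pi.add_apply, Pi.neg_apply, Pi.zero_apply] at h4
    ext
    omega
  · intro k
    simp only [Pi.add_apply, Pi.neg_apply]
    have h5 := (x k).2
    have h6 := (y k).2
    rw [abs_le]
    constructor <;> omega
  · refine div_prod S hS _ fun l hl => ?_
    have := (AddSubgroup.mem_iInf.1 hf) ⟨l, hl⟩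
    exact this

end Helper62.Weber
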