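import Pool.Agent.Helper62.Weber.Eps
import Pool.Agent.Helper62.Weber.Alg
import Pool.Agent.Helper62.Weber.Pigeon

/-!
# The relative units as a module over `ℤ[X]` (MP_e74dc5_nt)
-/

set_option autoImplicit false

open IntermediateField Polynomial

noncomputable section

namespace Helper62.Weber

/-- the action on the relative units -/
def galRE {n : ℕ} (g : B n ≃ₐ[ℚ] B n) : RE n →* RE n where
  toFun u := ⟨gal g u, gal_RE g u.2⟩
  map_one' := Subtype.ext (map_one _)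
  map_mul' _ _ := Subtype.ext (map_mul _ _ _)

/-- the relative units, written additively -/
abbrev Mo (n : ℕ) : Type := Additive (RE n)

/-- the generator of the Galois group as an endomorphism -/
def sig (n : ℕ) : Module.End ℤ (Mo n) := (MonoidHom.toAdditive (galRE (s n))).toIntLinearMap

/-- the unit -/
def vl {n : ℕ} (m : Mo n) : (B n)ˣ := ((Additive.toMul m : RE n) : (B n)ˣ)

theorem vl_add {n : ℕ} (m m' : Mo n) : vl (m + m') = vl m * vl m' := rfl

theorem vl_zero (n : ℕ) : vl (0 : Mo n) = 1 := rfl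

theorem vl_neg {n : ℕ} (m : Mo n) : vl (-m) = (vl m)⁻¹ := rfl

theorem vl_nsmul {n : ℕ} (k : ℕ) (m : Mo n) : vl (k • m) = vl m ^ k := rfl

theorem vl_zsmul {n : ℕ} (k : ℤ) (m : Mo n) : vl (k • m) = vl m ^ k := rfl

theorem vl_inj {n : ℕ} {m m' : Mo n} (h : vl m = vl m') : m = m' := Subtype.ext h

theorem vl_mem {n : ℕ} (m : Mo n) : vl m ∈ RE n := (Additive.toMul m : RE n).2

theorem vl_sum {n : ℕ} {ι : Type*} (t : Finset ι) (f : ι → Mo n) :
    vl (∑ i ∈ t, f i) = ∏ i ∈ t, vl (f i) := by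
  classical
  induction t using Finset.induction_on with
  | empty => rw [Finset.sum_empty, Finset.prod_empty, vl_zero]
  | insert a t ha ih => rw [Finset.sum_insert ha, Finset.prod_insert ha, vl_add, ih]

theorem vl_sig {n : ℕ} (m : Mo n) : vl (sig n m) = gal (s n) (vl m) := rfl

theorem vl_sig_pow {n : ℕ} (k : ℕ) (m : Mo n) : vl ((sig n ^ k) m) = gal (s n ^ k) (vl m) := by
  induction k with
  | zero => rw [pow_zero, pow_zero, gal_one]; rfl
  | succ k ih =>
    rw [pow_succ', pow_succ', gal_mul, ← ih]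
    exact vl_sig _

/-- `ε_n` -/
def eM (n : ℕ) (hn : 1 ≤ n) : Mo n := Additive.ofMul ⟨eps n, eps_RE hn⟩

theorem vl_eM (n : ℕ) (hn : 1 ≤ n) : vl (eM n hn) = eps n := rfl

/-- `∏ (σ^(k 2^(n-r)) ε)^(a_k)` -/
def ph (n r : ℕ) (a : Fin (2 ^ (r - 1)) → ℤ) : (B n)ˣ :=
  ∏ k : Fin (2 ^ (r - 1)), gal (s n ^ ((k : ℕ) * 2 ^ (n - r))) (eps n) ^ a k

/-- the corresponding polynomial -/
def pl (n r : ℕ) (a : Fin (2 ^ (r - 1)) → ℤ) : ℤ[X] :=
  ∑ k : Fin (2 ^ (r - 1)), C (a k) * X ^ ((k : ℕ) * 2 ^ (n - r))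

theorem aeval_pl (n r : ℕ) (a : Fin (2 ^ (r - 1)) → ℤ) (m : Mo n) :
    aeval (sig n) (pl n r a) m =
      ∑ k : Fin (2 ^ (r - 1)), a k • (sig n ^ ((k : ℕ) * 2 ^ (n - r))) m := by
  rw [pl, map_sum, LinearMap.sum_apply]
  refine Finset.sum_congr rfl fun k _ => ?_
  rw [map_mul, map_pow, aeval_X, aeval_C, Module.End.mul_apply, Module.algebraMap_end_apply]

theorem pl_add (n r : ℕ) (a b : Fin (2 ^ (r - 1)) → ℤ) : pl n r (a + b) = pl n r a + pl n r b := by
  rw [pl, pl, pl, ← Finset.sum_add_distrib]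
  refine Finset.sum_congr rfl fun k _ => ?_
  rw [Pi.add_apply, C_add, add_mul]

theorem pl_zero (n r : ℕ) : pl n r 0 = 0 := by
  rw [pl]
  exact Finset.sum_eq_zero fun k _ => by rw [Pi.zero_apply, C_0, zero_mul]

/-- the map to the relative units -/
def Phi (n r : ℕ) (hn : 1 ≤ n) : (Fin (2 ^ (r - 1)) → ℤ) →+ Mo n where
  toFun a := aeval (sig n) (pl n r a) (eM n hn)
  map_zero' := by rw [pl_zero, map_zero, LinearMap.zero_apply]
  map_add' a b := by rw [pl_add, map_add, LinearMap.add_apply]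

theorem Phi_apply (n r : ℕ) (hn : 1 ≤ n) (a : Fin (2 ^ (r - 1)) → ℤ) :
    Phi n r hn a = aeval (sig n) (pl n r a) (eM n hn) := rfl

theorem vl_Phi (n r : ℕ) (hn : 1 ≤ n) (a : Fin (2 ^ (r - 1)) → ℤ) :
    vl (Phi n r hn a) = ph n r a := by
  rw [Phi_apply, aeval_pl, vl_sum, ph]
  refine Finset.prod_congr rfl fun k _ => ?_
  rw [vl_zsmul, vl_sig_pow, vl_eM]

theorem ann {n : ℕ} (hn : 1 ≤ n) (m : Mo n) : aeval (sig n) (X ^ 2 ^ (n - 1) + 1 : ℤ[X]) m = 0 := by
  apply vl_inj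
  rw [map_add, map_pow, aeval_X, map_one, LinearMap.add_apply, Module.End.one_apply, vl_add,
    vl_sig_pow, vl_zero]
  apply Units.ext
  rw [Units.val_mul, gal_val, mul_comm, Units.val_one]
  exact ((mem_RE hn _).1 (vl_mem m)).2

/-- the generic polynomial of degree less than `2^(r-1)` -/
theorem pl_of_poly {n r : ℕ} (a : ℤ[X]) (h : a.natDegree < 2 ^ (r - 1)) :
    pl n r (fun k => a.coeff k) = expand ℤ (2 ^ (n - r)) a := by
  rw [pl]
  conv_rhs => rw [a.as_sum_range' _ h, map_sum]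
  rw [Finset.sum_range]
  refine Finset.sum_congr rfl fun k _ => ?_
  rw [expand_monomial, C_mul_X_pow_eq_monomial]

theorem abs_eq_one_of_pow {y : ℝ} {k : ℕ} (hk : k ≠ 0) (h : y ^ k = 1) : |y| = 1 := by
  have h1 : |y| ^ k = 1 := by rw [← abs_pow, h, abs_one]
  exact (pow_eq_one_iff_of_nonneg (abs_nonneg y) hk).1 h1

theorem tors {n : ℕ} {m : Mo n} {k : ℤ} (hk : k ≠ 0) (h : k • m = 0) : vl m = 1 ∨ vl m = -1 := by
  have h0 : k.natAbs ≠ 0 := Int.natAbs_ne_zero.2 hk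
  have h1 : k.natAbs • m = 0 := by
    rcases Int.natAbs_eq k with h2 | h2
    · rw [h2] at h
      rwa [natCast_zsmul] at h
    · rw [h2, neg_smul, neg_eq_zero, natCast_zsmul] at h
      exact h
  have h2 : vl m ^ k.natAbs = 1 := by rw [← vl_nsmul, h1, vl_zero]
  have h3 : (((vl m : B n) : B n) : ℝ) ^ k.natAbs = 1 := by
    have := congrArg (fun u : (B n)ˣ => (((u : B n)) : ℝ)) h2
    simpa using this
  have h4 := abs_eq_one_of_pow h0 h3
  rcases eq_or_eq_neg_of_abs_eq h4 with h5 | h5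
  · left
    apply Units.ext
    exact Subtype.ext h5
  · right
    apply Units.ext
    exact Subtype.ext h5

theorem eps_ne {n : ℕ} (hn : 1 ≤ n) : eps n ≠ 1 ∧ eps n ≠ -1 := by
  have h1 := (x_sub n).1
  constructor
  · intro h
    have h2 : (xB n + 1) / (xB n - 1) = 1 := congrArg Units.val h
    rw [div_eq_one_iff_eq h1] at h2
    have h3 : (2 : B n) = 0 := by linear_combination h2
    exact two_ne_zero h3
  · intro h
    have h2 : (xB n + 1) / (xB n - 1) = -1 := congrArg Units.val h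
    rw [div_eq_iff h1] at h2
    have h3 : (2 : B n) * xB n = 0 := by linear_combination h2
    rcases mul_eq_zero.1 h3 with h4 | h4
    · exact two_ne_zero h4
    · exact xB_ne_zero hn h4

/-- `X^(2^e) + 1` and a nonzero polynomial of smaller degree generate a nonzero integer -/
theorem bezout (e : ℕ) (f : ℤ[X]) (hf : f ≠ 0) (hd : f.natDegree < 2 ^ e) :
    ∃ (u v : ℤ[X]) (N : ℤ), N ≠ 0 ∧ u * f + v * (X ^ 2 ^ e + 1) = C N := by
  have hc : cyclotomic (2 ^ (e + 1)) ℚ = X ^ 2 ^ e + 1 := by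
    rw [cyclotomic_prime_pow_eq_geom_sum Nat.prime_two]
    rw [Finset.sum_range_succ, Finset.sum_range_one, pow_zero, pow_one, add_comm]
  have hirr : Irreducible (X ^ 2 ^ e + 1 : ℚ[X]) := by
    rw [← hc]
    exact cyclotomic.irreducible_rat (by positivity)
  have hinj : Function.Injective (Int.castRingHom ℚ) := Int.cast_injective
  have hf' : f.map (Int.castRingHom ℚ) ≠ 0 := (Polynomial.map_ne_zero_iff hinj).2 hf
  have hdeg : (X ^ 2 ^ e + 1 : ℚ[X]).natDegree = 2 ^ e := by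
    have := natDegree_X_pow_add_C (n := 2 ^ e) (r := (1 : ℚ))
    simpa using this
  have hcop : IsCoprime (X ^ 2 ^ e + 1 : ℚ[X]) (f.map (Int.castRingHom ℚ)) := by
    rw [hirr.coprime_iff_not_dvd]
    intro hdvd
    have h1 := natDegree_le_of_dvd hdvd hf'
    rw [hdeg, natDegree_map_eq_of_injective hinj] at h1
    omega
  obtain ⟨v, u, huv⟩ := hcop
  obtain ⟨b, hb0, hb⟩ := IsLocalization.integerNormalization_spec (nonZeroDivisors ℤ) u
  obtain ⟨c, hc0, hc⟩ := IsLocalization.integerNormalization_spec (nonZeroDivisors ℤ) v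
  set U := IsLocalization.integerNormalization (nonZeroDivisors ℤ) u
  set V := IsLocalization.integerNormalization (nonZeroDivisors ℤ) v
  refine ⟨C c * U, C b * V, b * c, mul_ne_zero (nonZeroDivisors.ne_zero hb0)
    (nonZeroDivisors.ne_zero hc0), ?_⟩
  apply map_injective (Int.castRingHom ℚ) hinj
  have hb' : U.map (Int.castRingHom ℚ) = C (b : ℚ) * u := by
    have : U.map (algebraMap ℤ ℚ) = b • u := hb
    rw [zsmul_eq_mul, ← Polynomial.C_eq_intCast] at this
    exact this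
  have hc' : V.map (Int.castRingHom ℚ) = C (c : ℚ) * v := by
    have : V.map (algebraMap ℤ ℚ) = c • v := hc
    rw [zsmul_eq_mul, ← Polynomial.C_eq_intCast] at this
    exact this
  have hC : ∀ z : ℤ, (C z : ℤ[X]).map (Int.castRingHom ℚ) = C (z : ℚ) := fun z => by
    rw [Polynomial.map_C]; rfl
  rw [Polynomial.map_add, Polynomial.map_mul, Polynomial.map_mul, Polynomial.map_mul,
    Polynomial.map_mul, Polynomial.map_add, Polynomial.map_pow, Polynomial.map_X,
    Polynomial.map_one, hC, hC, hC, hb', hc']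
  have e1 : (C (c : ℚ) * (C (b : ℚ) * u)) * f.map (Int.castRingHom ℚ) +
      (C (b : ℚ) * (C (c : ℚ) * v)) * (X ^ 2 ^ e + 1) =
      C (b : ℚ) * C (c : ℚ) * (v * (X ^ 2 ^ e + 1) + u * f.map (Int.castRingHom ℚ)) := by ring
  rw [e1, huv, mul_one, ← C_mul]
  push_cast
  rfl

theorem pl_coeff {n r : ℕ} (a : Fin (2 ^ (r - 1)) → ℤ) (k : Fin (2 ^ (r - 1))) :
    (pl n r a).coeff ((k : ℕ) * 2 ^ (n - r)) = a k := by
  rw [pl, finsetSum_coeff, Finset.sum_eq_single k]
  · rw [coeff_C_mul_X_pow, if_pos rfl]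
  · intro j _ hj
    rw [coeff_C_mul_X_pow, if_neg]
    intro h
    apply hj
    apply Fin.ext
    exact (Nat.eq_of_mul_eq_mul_right (by positivity) h).symm
  · intro h
    exact absurd (Finset.mem_univ k) h

theorem pl_deg {n r : ℕ} (hr : 1 ≤ r) (hrn : r ≤ n) (a : Fin (2 ^ (r - 1)) → ℤ) :
    (pl n r a).natDegree < 2 ^ (n - 1) := by
  have h0 : 0 < 2 ^ (n - 1) := by positivity
  refine lt_of_le_of_lt (natDegree_sum_le_of_forall_le (n := 2 ^ (n - 1) - 1) _ _ fun k _ => ?_)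
    (by omega)
  refine (natDegree_C_mul_X_pow_le _ _).trans ?_
  have h1 : ((k : ℕ) + 1) * 2 ^ (n - r) ≤ 2 ^ (r - 1) * 2 ^ (n - r) :=
    Nat.mul_le_mul_right _ k.2
  have h2 : 2 ^ (r - 1) * 2 ^ (n - r) = 2 ^ (n - 1) := by
    rw [← pow_add]; congr 1; omega
  have h3 : 0 < 2 ^ (n - r) := by positivity
  rw [h2, add_mul, one_mul] at h1
  omega

/-- injectivity -/
theorem Phi_ne {n r : ℕ} (hn : 1 ≤ n) (hr : 1 ≤ r) (hrn : r ≤ n) (a : Fin (2 ^ (r - 1)) → ℤ)
    (ha : a ≠ 0) (k : ℤ) (hk : k ≠ 0) : k • Phi n r hn a ≠ 0 := by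
  intro h
  have hpl : pl n r a ≠ 0 := by
    intro h0
    apply ha
    funext j
    rw [← pl_coeff (n := n) a j, h0, coeff_zero, Pi.zero_apply]
  obtain ⟨u, v, N, hN, huv⟩ := bezout (n - 1) (pl n r a) hpl (pl_deg hr hrn a)
  have h1 : (k * N) • eM n hn = 0 := by
    have h2 : N • eM n hn = aeval (sig n) u (Phi n r hn a) := by
      have h3 : aeval (sig n) (C N) (eM n hn) = N • eM n hn := by
        rw [aeval_C, Module.algebraMap_end_apply]
      rw [← h3, ← huv, map_add, map_mul, map_mul, LinearMap.add_apply, Module.End.mul_apply,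
        Module.End.mul_apply, ann hn, map_zero, add_zero, Phi_apply]
    rw [mul_smul, h2, ← map_zsmul, h, map_zero]
  rcases tors (mul_ne_zero hk hN) h1 with h2 | h2
  · exact (eps_ne hn).1 h2
  · exact (eps_ne hn).2 h2

/-- bad primes -/
def Bad (l n : ℕ) : Prop := ∃ u ∈ RE n, u ∉ Cn n ∧ u ^ l ∈ Cn n

theorem neg_one_mem (n : ℕ) : (-1 : (B n)ˣ) ∈ RE n := by
  have h1 : IsIntegral ℤ (-1 : B n) := isIntegral_one.neg
  refine ⟨⟨?_, ?_⟩, fun τ _ _ => ?_⟩
  · rw [Units.val_neg, Units.val_one]; exact h1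
  · rw [inv_neg_one, Units.val_neg, Units.val_one]; exact h1
  · rw [Units.val_neg, Units.val_one, map_neg, map_one]; ring

/-- elements of `Cn` -/
theorem Cn_form {n : ℕ} (hn : 1 ≤ n) {w : (B n)ˣ} (hw : w ∈ Cn n) :
    ∃ f : ℤ[X], w = vl (aeval (sig n) f (eM n hn)) ∨ w = -vl (aeval (sig n) f (eM n hn)) := by
  rw [Cn] at hw
  induction hw using Subgroup.closure_induction with
  | mem w hw =>
    rcases hw with rfl | ⟨g, hg⟩
    · exact ⟨0, Or.inr (by rw [map_zero, LinearMap.zero_apply, vl_zero])⟩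
    · obtain ⟨k, rfl⟩ := exists_pow_s n g
      refine ⟨X ^ k, Or.inl ?_⟩
      rw [map_pow, aeval_X, vl_sig_pow, vl_eM]
      exact Units.ext hg
  | one => exact ⟨0, Or.inl (by rw [map_zero, LinearMap.zero_apply, vl_zero])⟩
  | mul w w' _ _ ih ih' =>
    obtain ⟨f, hf⟩ := ih
    obtain ⟨f', hf'⟩ := ih'
    refine ⟨f + f', ?_⟩
    rw [map_add, LinearMap.add_apply, vl_add]
    rcases hf with rfl | rfl <;> rcases hf' with rfl | rfl
    · exact Or.inl rfl
    · exact Or.inr (mul_neg _ _)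
    · exact Or.inr (neg_mul _ _)
    · exact Or.inl (neg_mul_neg _ _)
  | inv w _ ih =>
    obtain ⟨f, hf⟩ := ih
    refine ⟨-f, ?_⟩
    rw [map_neg, LinearMap.neg_apply, vl_neg]
    rcases hf with rfl | rfl
    · exact Or.inl rfl
    · exact Or.inr inv_neg

theorem mem_Cn {n : ℕ} (hn : 1 ≤ n) (f : ℤ[X]) : vl (aeval (sig n) f (eM n hn)) ∈ Cn n := by
  induction f using Polynomial.induction_on' with
  | add p q hp hq =>
    rw [map_add, LinearMap.add_apply, vl_add]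
    exact mul_mem hp hq
  | monomial k c =>
    rw [← C_mul_X_pow_eq_monomial, map_mul, map_pow, aeval_X, aeval_C, Module.End.mul_apply,
      Module.algebraMap_end_apply, vl_zsmul, vl_sig_pow, vl_eM]
    apply Subgroup.zpow_mem
    exact Subgroup.subset_closure (Or.inr ⟨s n ^ k, rfl⟩)

/-- the ideal of polynomials `f` with `f(σ) ε ∈ ℓ M` -/
def Il (n : ℕ) (hn : 1 ≤ n) (l : ℕ) : Ideal ℤ[X] where
  carrier := {f | ∃ m : Mo n, aeval (sig n) f (eM n hn) = (l : ℤ) • m}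
  zero_mem' := ⟨0, by rw [map_zero, LinearMap.zero_apply, smul_zero]⟩
  add_mem' := by
    rintro f g ⟨m, hm⟩ ⟨m', hm'⟩
    exact ⟨m + m', by rw [map_add, LinearMap.add_apply, hm, hm', zsmul_add]⟩
  smul_mem' := by
    rintro c f ⟨m, hm⟩
    refine ⟨aeval (sig n) c m, ?_⟩
    rw [smul_eq_mul, map_mul, Module.End.mul_apply, hm, map_zsmul]

theorem mem_Il {n : ℕ} (hn : 1 ≤ n) (l : ℕ) (f : ℤ[X]) :
    f ∈ Il n hn l ↔ ∃ m : Mo n, aeval (sig n) f (eM n hn) = (l : ℤ) • m := Iff.rfl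

theorem C_mem_Il {n : ℕ} (hn : 1 ≤ n) (l : ℕ) : C (l : ℤ) ∈ Il n hn l :=
  ⟨eM n hn, by rw [aeval_C, Module.algebraMap_end_apply]⟩

theorem X_mem_Il {n : ℕ} (hn : 1 ≤ n) (l : ℕ) : X ^ 2 ^ (n - 1) + 1 ∈ Il n hn l :=
  ⟨0, by rw [ann hn, smul_zero]⟩

theorem odd_root {n : ℕ} {l : ℕ} (hl : Odd l) {m m' : Mo n} (h : (l : ℤ) • m = (l : ℤ) • m') :
    m = m' := by
  have h1 : (l : ℤ) • (m - m') = 0 := by rw [zsmul_sub, h, sub_self]
  have hl0 : (l : ℤ) ≠ 0 := by
    have := hl.pos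
    exact_mod_cast this.ne'
  rcases tors hl0 h1 with h2 | h2
  · have h3 : m - m' = 0 := vl_inj h2
    exact sub_eq_zero.1 h3
  · exfalso
    have h3 : vl ((l : ℤ) • (m - m')) = -1 := by
      rw [vl_zsmul, h2, zpow_natCast, hl.neg_one_pow]
    rw [h1, vl_zero] at h3
    have h4 : (1 : B n) = -1 := congrArg Units.val h3
    have h5 : (2 : B n) = 0 := by linear_combination h4
    exact two_ne_zero h5

theorem not_le {n : ℕ} (hn : 1 ≤ n) {l : ℕ} (hl : Odd l) (hb : Bad l n) :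
    ¬ Il n hn l ≤ J l (n - 1) := by
  intro hle
  obtain ⟨u, hu, huC, hul⟩ := hb
  have key : ∀ v : (B n)ˣ, v ∈ RE n → ∀ f : ℤ[X], v ^ l = vl (aeval (sig n) f (eM n hn)) →
      v ∈ Cn n := by
    intro v hv f hf
    set m : Mo n := Additive.ofMul ⟨v, hv⟩ with hm
    have hvm : vl m = v := rfl
    have h1 : aeval (sig n) f (eM n hn) = (l : ℤ) • m := by
      apply vl_inj
      rw [vl_zsmul, hvm, zpow_natCast, hf]
    have h2 : f ∈ J l (n - 1) := hle ⟨m, h1⟩
    obtain ⟨a, b, hab⟩ := Ideal.mem_span_pair.1 h2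
    have h3 : aeval (sig n) f (eM n hn) = (l : ℤ) • aeval (sig n) a (eM n hn) := by
      rw [← hab, map_add, map_mul, map_mul, LinearMap.add_apply, Module.End.mul_apply,
        Module.End.mul_apply, ann hn, map_zero, add_zero, aeval_C, Module.algebraMap_end_apply,
        map_zsmul]
    have h4 : m = aeval (sig n) a (eM n hn) := odd_root hl (h1.symm.trans h3)
    rw [← hvm, h4]
    exact mem_Cn hn a
  obtain ⟨f, hf | hf⟩ := Cn_form hn hul
  · exact huC (key u hu f hf)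
  · have h1 : (-u) ^ l = vl (aeval (sig n) f (eM n hn)) := by
      rw [hl.neg_pow, hf, neg_neg]
    have h2 : -u ∈ RE n := by
      rw [← neg_one_mul]
      exact mul_mem (neg_one_mem n) hu
    have h3 := key (-u) h2 f h1
    apply huC
    rw [← neg_neg u, ← neg_one_mul]
    exact mul_mem (Subgroup.subset_closure (Or.inl rfl)) h3

/-- S1: bad primes give vectors in the lattices -/
theorem badPhi {n l t c₀ : ℕ} (hn : 1 ≤ n) (hlp : l.Prime) (hl : Odd l) (ht : 3 ≤ t)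
    (hc₀ : Odd c₀) (h : l ^ 2 = 1 + 2 ^ t * c₀) (hb : Bad l n) :
    ∃ a ∈ Lam (Phi n (min n t) hn) l, ¬ ∀ k, (l : ℤ) ∣ a k := by
  have : Fact l.Prime := ⟨hlp⟩
  have hI := not_le hn hl hb
  have h1 : ¬ (Il n hn l).comap (expand ℤ (2 ^ (n - min n t)) : ℤ[X] →ₐ[ℤ] ℤ[X]) ≤
      J l (min n t - 1) := by
    rcases le_or_gt n t with hnt | hnt
    · rw [min_eq_left hnt, Nat.sub_self]
      intro hle
      apply hI
      intro f hf
      apply hle
      rw [Ideal.mem_comap, pow_zero, expand_one]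
      exact hf
    · rw [min_eq_right hnt.le]
      have e1 : t - 1 + (n - t) = n - 1 := by omega
      refine descent hl (t - 1) ?_ (n - t) (C_mem_Il hn l) ?_ ?_
      · intro e' he'
        obtain ⟨k, c, hk, hc⟩ := levels ht hc₀ h (e' - t)
        refine ⟨k, c, ?_, hc⟩
        rw [hk]
        congr 3
        omega
      · rw [e1]; exact X_mem_Il hn l
      · rw [e1]; exact hI
  have hr1 : 1 ≤ min n t := le_min hn (by omega)
  have hrn : min n t ≤ n := min_le_left _ _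
  have h2 : X ^ 2 ^ (min n t - 1) + 1 ∈
      (Il n hn l).comap (expand ℤ (2 ^ (n - min n t)) : ℤ[X] →ₐ[ℤ] ℤ[X]) := by
    rw [Ideal.mem_comap]
    have e2 : expand ℤ (2 ^ (n - min n t)) (X ^ 2 ^ (min n t - 1) + 1 : ℤ[X]) =
        X ^ 2 ^ (n - 1) + 1 := by
      rw [map_add, map_pow, expand_X, map_one, ← pow_mul, ← pow_add]
      congr 3
      omega
    change expand ℤ (2 ^ (n - min n t)) (X ^ 2 ^ (min n t - 1) + 1 : ℤ[X]) ∈ Il n hn l
    rw [e2]
    exact X_mem_Il hn l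
  obtain ⟨a, haI, hdeg, hnd⟩ := small h2 h1
  refine ⟨fun k => a.coeff k, ?_, ?_⟩
  · rw [mem_Lam, Phi_apply, pl_of_poly a hdeg]
    exact haI
  · intro hall
    apply hnd
    rw [C_dvd_iff_dvd_coeff]
    intro i
    by_cases hi : i < 2 ^ (min n t - 1)
    · exact hall ⟨i, hi⟩
    · rw [coeff_eq_zero_of_natDegree_lt (lt_of_lt_of_le hdeg (not_lt.1 hi))]
      exact dvd_zero _

end Helper62.Weber
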