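import Pool.Agent.Helper62.Weber.Gal
import Pool.Agent.Helper62.Weber.Alg

/-!
# Divisibility in the ring of integers of the cyclotomic field (MP_e74dc5_nt)
-/

set_option autoImplicit false

open IntermediateField Polynomial

noncomputable section

namespace Helper62.Weber

/-- divisibility by `m` in the ring of integers -/
def Dv (n m : ℕ) (y : L n) : Prop := ∃ w : L n, IsIntegral ℤ w ∧ y = (m : L n) * w

theorem Dv_zero (n m : ℕ) : Dv n m 0 := ⟨0, isIntegral_zero, by rw [mul_zero]⟩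

theorem Dv_add {n m : ℕ} {y y' : L n} (h : Dv n m y) (h' : Dv n m y') : Dv n m (y + y') := by
  obtain ⟨w, hw, rfl⟩ := h
  obtain ⟨w', hw', rfl⟩ := h'
  exact ⟨w + w', hw.add hw', by ring⟩

theorem Dv_sum {n m : ℕ} {ι : Type*} (t : Finset ι) (f : ι → L n) (h : ∀ i ∈ t, Dv n m (f i)) :
    Dv n m (∑ i ∈ t, f i) := by
  classical
  induction t using Finset.induction_on with
  | empty => rw [Finset.sum_empty]; exact Dv_zero n m
  | insert a t ha ih =>
    rw [Finset.sum_insert ha]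
    exact Dv_add (h a (Finset.mem_insert_self a t))
      (ih fun i hi => h i (Finset.mem_insert_of_mem hi))

theorem Dv_mul {n m : ℕ} {y c : L n} (h : Dv n m y) (hc : IsIntegral ℤ c) : Dv n m (c * y) := by
  obtain ⟨w, hw, rfl⟩ := h
  exact ⟨c * w, hc.mul hw, by ring⟩

theorem Dv_mul' {n m : ℕ} {y c : L n} (h : Dv n m y) (hc : IsIntegral ℤ c) : Dv n m (y * c) := by
  rw [mul_comm]
  exact Dv_mul h hc

theorem Dv_mul_Dv {n m m' : ℕ} {y y' : L n} (h : Dv n m y) (h' : Dv n m' y') :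
    Dv n (m * m') (y * y') := by
  obtain ⟨w, hw, rfl⟩ := h
  obtain ⟨w', hw', rfl⟩ := h'
  exact ⟨w * w', hw.mul hw', by push_cast; ring⟩

theorem Dv_gal {n m : ℕ} {y : L n} (h : Dv n m y) (g : L n ≃ₐ[ℚ] L n) : Dv n m (g y) := by
  obtain ⟨w, hw, rfl⟩ := h
  refine ⟨g w, ?_, by rw [map_mul, map_natCast]⟩
  exact hw.map (g.toAlgHom.restrictScalars ℤ)

theorem Dv_cancel {n m l : ℕ} (hl : l ≠ 0) {y : L n} (h : Dv n (l * m) ((l : L n) * y)) :
    Dv n m y := by
  obtain ⟨w, hw, h⟩ := h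
  refine ⟨w, hw, ?_⟩
  have hl' : (l : L n) ≠ 0 := Nat.cast_ne_zero.2 hl
  apply mul_left_cancel₀ hl'
  rw [h]
  push_cast
  ring

theorem Dv_coprime {n m N : ℕ} (hc : Nat.Coprime m N) {y : L n} (hy : IsIntegral ℤ y)
    (h : Dv n m ((N : L n) * y)) : Dv n m y := by
  obtain ⟨w, hw, h⟩ := h
  obtain ⟨u, v, huv⟩ := (Nat.isCoprime_iff_coprime.2 hc)
  refine ⟨(u : L n) * y + (v : L n) * w, ?_, ?_⟩
  · exact ((isIntegral_algebraMap (R := ℤ) (A := L n) (x := u)).mul hy).add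
      ((isIntegral_algebraMap (R := ℤ) (A := L n) (x := v)).mul hw)
  · have h1 : (u : L n) * (m : L n) + (v : L n) * (N : L n) = 1 := by
      have := congrArg (fun k : ℤ => (k : L n)) huv
      push_cast at this
      exact this
    calc y = ((u : L n) * (m : L n) + (v : L n) * (N : L n)) * y := by rw [h1, one_mul]
      _ = (m : L n) * ((u : L n) * y) + (v : L n) * ((N : L n) * y) := by ring
      _ = (m : L n) * ((u : L n) * y + (v : L n) * w) := by rw [h]; ring

theorem z_int (n : ℕ) : IsIntegral ℤ (z n) := (z_prim n).isIntegral (by positivity)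

theorem z_ne (n : ℕ) : z n ≠ 0 := (z_prim n).ne_zero (by positivity)

theorem int_poly {n : ℕ} {u : L n} (hu : IsIntegral ℤ u) : ∃ P : ℤ[X], u = aeval (z n) P := by
  have : Fact (Nat.Prime 2) := ⟨Nat.prime_two⟩
  have h := IsCyclotomicExtension.Rat.isIntegralClosure_adjoin_singleton_of_prime_pow
    (p := 2) (k := n + 2) (K := L n) (z_prim n)
  obtain ⟨⟨y, h2⟩, hy⟩ := (h.isIntegral_iff).1 hu
  rw [Algebra.adjoin_singleton_eq_range_aeval] at h2
  obtain ⟨P, hP⟩ := h2
  refine ⟨P, ?_⟩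
  rw [← hy]
  exact hP.symm

theorem frob_int {n l : ℕ} [Fact l.Prime] {g : L n ≃ₐ[ℚ] L n} (hg : g (z n) = z n ^ l)
    {u : L n} (hu : IsIntegral ℤ u) : Dv n l (g u - u ^ l) := by
  obtain ⟨P, rfl⟩ := int_poly hu
  obtain ⟨Q, hQ⟩ := frob l P
  refine ⟨-aeval (z n) Q, ?_, ?_⟩
  · refine IsIntegral.neg ?_
    have : aeval (z n) Q ∈ Algebra.adjoin ℤ {z n} := aeval_mem_adjoin_singleton ℤ (z n)
    exact (adjoin_le_integralClosure (z_int n)) this
  · have h1 : g (aeval (z n) P) = aeval (z n) (expand ℤ l P) := by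
      rw [expand_aeval, ← hg]
      have := Polynomial.aeval_algHom_apply (g.toAlgHom.restrictScalars ℤ) (z n) P
      exact this.symm
    rw [h1, ← map_pow, hQ, map_add, map_mul, aeval_C]
    simp

theorem pow_int {n l : ℕ} {a b : L n} (ha : IsIntegral ℤ a) (hb : IsIntegral ℤ b)
    (h : Dv n l (a - b)) : Dv n (l * l) (a ^ l - b ^ l) := by
  rw [← (Commute.all a b).mul_geom_sum₂]
  refine Dv_mul_Dv h ?_
  have h1 : ∀ i, Dv n l (a ^ i - b ^ i) := by
    intro i
    rw [← (Commute.all a b).mul_geom_sum₂]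
    refine Dv_mul' h ?_
    exact IsIntegral.sum _ fun j _ => (ha.pow _).mul (hb.pow _)
  have h2 : ∑ i ∈ Finset.range l, a ^ i * b ^ (l - 1 - i) =
      (∑ i ∈ Finset.range l, (a ^ i - b ^ i) * b ^ (l - 1 - i)) + (l : L n) * b ^ (l - 1) := by
    have h3 : (l : L n) * b ^ (l - 1) = ∑ i ∈ Finset.range l, b ^ (l - 1) := by
      rw [Finset.sum_const, Finset.card_range, nsmul_eq_mul]
    rw [h3, ← Finset.sum_add_distrib]
    refine Finset.sum_congr rfl fun i hi => ?_
    have h4 : b ^ (l - 1) = b ^ i * b ^ (l - 1 - i) := by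
      rw [← pow_add]
      congr 1
      have := Finset.mem_range.1 hi
      omega
    rw [h4]
    ring
  rw [h2]
  refine Dv_add (Dv_sum _ _ fun i _ => Dv_mul' (h1 i) (hb.pow _)) ⟨b ^ (l - 1), hb.pow _, rfl⟩

end Helper62.Weber
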