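import Pool.Agent.Helper62.Weber.Gal

/-!
# The units `ε_n`, Galois stability and heights (MP_e74dc5_nt)
-/

set_option autoImplicit false

open IntermediateField

noncomputable section

namespace Helper62.Weber

theorem int_iff {n : ℕ} (y : B n) : IsIntegral ℤ (iB n y) ↔ IsIntegral ℤ y :=
  isIntegral_algHom_iff ((iB n).restrictScalars ℤ) (iB n).injective

/-- `1 + y + y⁻¹` is a unit -/
theorem unit_aux {K : Type*} [Field K] {m : ℕ} (hm : Nat.Coprime 3 m) (h0 : 1 < m) {y : K}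
    (hy : IsPrimitiveRoot y m) :
    IsIntegral ℤ (1 + y + y⁻¹) ∧ ∃ v : K, IsIntegral ℤ v ∧ (1 + y + y⁻¹) * v = 1 := by
  have hy0 : y ≠ 0 := hy.ne_zero (by omega)
  have hy1 : y ≠ 1 := hy.ne_one h0
  have hint : IsIntegral ℤ y := hy.isIntegral (by omega)
  have hint' : IsIntegral ℤ y⁻¹ := hy.inv.isIntegral (by omega)
  refine ⟨(isIntegral_one.add hint).add hint', ?_⟩
  have h3 : IsPrimitiveRoot (y ^ 3) m := hy.pow_of_coprime 3 hm
  have : NeZero m := ⟨by omega⟩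
  obtain ⟨k, _, hk⟩ := h3.eq_pow_of_pow_eq_one hy.pow_eq_one
  refine ⟨y * ∑ i ∈ Finset.range k, (y ^ 3) ^ i, hint.mul ?_, ?_⟩
  · exact IsIntegral.sum _ fun i _ => (hint.pow 3).pow i
  · have h4 := mul_geom_sum (y ^ 3) k
    rw [hk] at h4
    have h5 : y - 1 ≠ 0 := sub_ne_zero.2 hy1
    have h6 : (1 + y + y⁻¹) * y = y ^ 2 + y + 1 := by field_simp; ring
    rw [← mul_assoc, h6]
    apply mul_left_cancel₀ h5
    calc (y - 1) * ((y ^ 2 + y + 1) * ∑ i ∈ Finset.range k, (y ^ 3) ^ i)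
        = (y ^ 3 - 1) * ∑ i ∈ Finset.range k, (y ^ 3) ^ i := by ring
      _ = (y - 1) * 1 := by rw [h4, mul_one]

theorem neg_prim (n : ℕ) : IsPrimitiveRoot (-z n) (2 ^ (n + 2)) := by
  have h : -z n = z n ^ (1 + 2 ^ (n + 1)) := by
    rw [pow_add, z_half, pow_one]; ring
  rw [h]
  apply (z_prim n).pow_of_coprime
  apply Nat.Coprime.pow_right
  rw [Nat.coprime_two_right]
  exact odd_one.add_even (by rw [pow_succ]; exact even_two.mul_left _)

theorem three_cop (n : ℕ) : Nat.Coprime 3 (2 ^ (n + 2)) := Nat.Coprime.pow_right _ (by norm_num)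

theorem one_lt_pow' (n : ℕ) : 1 < 2 ^ (n + 2) := Nat.one_lt_two_pow (by omega)

/-- transfer of units -/
theorem unit_B {n : ℕ} {w : B n} (h : ∃ v : L n, IsIntegral ℤ v ∧ iB n w * v = 1) :
    w ≠ 0 ∧ IsIntegral ℤ w⁻¹ := by
  obtain ⟨v, hv, hv1⟩ := h
  have h0 : w ≠ 0 := by
    rintro rfl
    rw [map_zero, zero_mul] at hv1
    exact zero_ne_one hv1
  refine ⟨h0, ?_⟩
  rw [← int_iff, map_inv₀, inv_eq_of_mul_eq_one_right hv1]
  exact hv

theorem x_add (n : ℕ) : xB n + 1 ≠ 0 ∧ IsIntegral ℤ (xB n + 1) ∧ IsIntegral ℤ (xB n + 1)⁻¹ := by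
  have h := unit_aux (three_cop n) (one_lt_pow' n) (z_prim n)
  have e : iB n (xB n + 1) = 1 + z n + (z n)⁻¹ := by rw [map_add, iB_x, map_one]; ring
  rw [← e] at h
  have h2 := unit_B h.2
  exact ⟨h2.1, (int_iff _).1 h.1, h2.2⟩

theorem x_sub (n : ℕ) : xB n - 1 ≠ 0 ∧ IsIntegral ℤ (xB n - 1) ∧ IsIntegral ℤ (xB n - 1)⁻¹ := by
  have h := unit_aux (three_cop n) (one_lt_pow' n) (neg_prim n)
  have e : iB n (-(xB n - 1)) = 1 + -z n + (-z n)⁻¹ := by
    rw [map_neg, map_sub, iB_x, map_one, inv_neg]; ring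
  rw [← e] at h
  have h2 := unit_B h.2
  refine ⟨neg_ne_zero.1 h2.1, ?_, ?_⟩
  · have := ((int_iff _).1 h.1).neg
    rwa [neg_neg] at this
  · have := h2.2.neg
    rwa [inv_neg, neg_neg] at this

/-- the unit `ε_n` -/
def eps (n : ℕ) : (B n)ˣ :=
  Units.mk0 ((xB n + 1) / (xB n - 1)) (div_ne_zero (x_add n).1 (x_sub n).1)

theorem eps_val (n : ℕ) : (eps n : B n) = (xB n + 1) / (xB n - 1) := rfl

theorem eps_En (n : ℕ) : eps n ∈ En n := by
  constructor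
  · rw [eps_val, div_eq_mul_inv]
    exact (x_add n).2.1.mul (x_sub n).2.2
  · rw [Units.val_inv_eq_inv_val, eps_val, inv_div, div_eq_mul_inv]
    exact (x_sub n).2.1.mul (x_add n).2.2

theorem eps_RE {n : ℕ} (hn : 1 ≤ n) : eps n ∈ RE n := by
  rw [mem_RE hn]
  refine ⟨eps_En n, ?_⟩
  rw [eps_val, map_div₀, map_add, map_sub, map_one, rho_x hn]
  have h1 := (x_add n).1
  have h2 := (x_sub n).1
  have h3 : -xB n + 1 = -(xB n - 1) := by ring
  have h4 : -xB n - 1 = -(xB n + 1) := by ring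
  rw [h3, h4, neg_div_neg_eq, div_mul_div_comm, mul_comm (xB n + 1), div_self]
  exact mul_ne_zero h2 h1

/-- action of an automorphism on the units -/
def gal {n : ℕ} (g : B n ≃ₐ[ℚ] B n) : (B n)ˣ →* (B n)ˣ := Units.map (g : B n →* B n)

@[simp] theorem gal_val {n : ℕ} (g : B n ≃ₐ[ℚ] B n) (u : (B n)ˣ) :
    (gal g u : B n) = g (u : B n) := rfl

theorem gal_mul {n : ℕ} (g h : B n ≃ₐ[ℚ] B n) (u : (B n)ˣ) : gal (g * h) u = gal g (gal h u) :=
  Units.ext rfl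

theorem gal_one {n : ℕ} (u : (B n)ˣ) : gal (1 : B n ≃ₐ[ℚ] B n) u = u := Units.ext rfl

theorem int_gal {n : ℕ} (g : B n ≃ₐ[ℚ] B n) {y : B n} (h : IsIntegral ℤ y) :
    IsIntegral ℤ (g y) := h.map (g : B n →ₐ[ℚ] B n)

theorem gal_En {n : ℕ} (g : B n ≃ₐ[ℚ] B n) {u : (B n)ˣ} (h : u ∈ En n) : gal g u ∈ En n := by
  refine ⟨int_gal g h.1, ?_⟩
  rw [← map_inv]
  exact int_gal g h.2

theorem aut_comm {n : ℕ} (g h : B n ≃ₐ[ℚ] B n) : g * h = h * g :=
  IsMulCommutative.is_comm.comm g h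

theorem gal_RE {n : ℕ} (g : B n ≃ₐ[ℚ] B n) {u : (B n)ˣ} (h : u ∈ RE n) : gal g u ∈ RE n := by
  refine ⟨gal_En g h.1, fun τ h1 h2 => ?_⟩
  rw [gal_val]
  have h3 : τ (g (u : B n)) = g (τ (u : B n)) := by
    have := DFunLike.congr_fun (aut_comm τ g) (u : B n)
    exact this
  rw [h3, ← map_mul, h.2 τ h1 h2, map_one]

end Helper62.Weber
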