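import Mathlib

/-!
# The layers `𝔹_n` of the cyclotomic `ℤ_2`-extension of `ℚ` (MP_e74dc5_nt)
-/

set_option autoImplicit false

open IntermediateField

noncomputable section

namespace Helper62.Weber

/-- `X_n = 2 cos (2π / 2^(n+2))` -/
def XR (n : ℕ) : ℝ := 2 * Real.cos (2 * Real.pi / 2 ^ (n + 2))

/-- `𝔹_n = ℚ(X_n)` -/
def B (n : ℕ) : IntermediateField ℚ ℝ := ℚ⟮XR n⟯

/-- `X_n` as an element of `𝔹_n` -/
def xB (n : ℕ) : B n := ⟨XR n, mem_adjoin_simple_self ℚ (XR n)⟩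

/-- the group of units of the ring of integers of `𝔹_n` -/
def En (n : ℕ) : Subgroup (B n)ˣ where
  carrier := {u | IsIntegral ℤ (u : B n) ∧ IsIntegral ℤ ((u⁻¹ : (B n)ˣ) : B n)}
  one_mem' := by
    simp only [Set.mem_ofPred_eq, inv_one, Units.val_one]
    exact ⟨isIntegral_one, isIntegral_one⟩
  mul_mem' := by
    rintro u v ⟨h1, h2⟩ ⟨h3, h4⟩
    refine ⟨?_, ?_⟩
    · rw [Units.val_mul]; exact h1.mul h3
    · rw [mul_inv, Units.val_mul]; exact h2.mul h4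
  inv_mem' := by
    rintro u ⟨h1, h2⟩
    exact ⟨h2, by rw [inv_inv]; exact h1⟩

/-- the relative units: kernel of the relative norm `ε ↦ ε τ(ε)`, where `τ` is the non-trivial
automorphism of `𝔹_n` over `𝔹_(n-1)` -/
def RE (n : ℕ) : Subgroup (B n)ˣ where
  carrier := {u | u ∈ En n ∧ ∀ τ : B n ≃ₐ[ℚ] B n, τ ≠ 1 →
    (∀ y : B n, (y : ℝ) ∈ B (n - 1) → τ y = y) → (u : B n) * τ u = 1}
  one_mem' := ⟨one_mem _, fun τ _ _ => by simp⟩
  mul_mem' := by
    rintro u v ⟨h1, h2⟩ ⟨h3, h4⟩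
    refine ⟨mul_mem h1 h3, fun τ hτ hy => ?_⟩
    rw [Units.val_mul, map_mul]
    calc (u : B n) * v * (τ u * τ v) = ((u : B n) * τ u) * (v * τ v) := by ring
      _ = 1 := by rw [h2 τ hτ hy, h4 τ hτ hy, one_mul]
  inv_mem' := by
    rintro u ⟨h1, h2⟩
    refine ⟨inv_mem h1, fun τ hτ hy => ?_⟩
    rw [Units.val_inv_eq_inv_val, map_inv₀, ← mul_inv, h2 τ hτ hy, inv_one]

/-- `⟨-1, ε_n⟩` as a Galois module, `ε_n = (X_n + 1) / (X_n - 1)` -/
def Cn (n : ℕ) : Subgroup (B n)ˣ :=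
  Subgroup.closure {u | u = -1 ∨ ∃ g : B n ≃ₐ[ℚ] B n, (u : B n) = g ((xB n + 1) / (xB n - 1))}

/-! ### the cyclotomic field -/

/-- the primitive root of unity -/
def zC (n : ℕ) : ℂ := Complex.exp (2 * Real.pi * Complex.I / ((2 ^ (n + 2) : ℕ) : ℂ))

theorem zC_prim (n : ℕ) : IsPrimitiveRoot (zC n) (2 ^ (n + 2)) :=
  Complex.isPrimitiveRoot_exp _ (by positivity)

/-- `ℚ(ζ)` -/
def L (n : ℕ) : IntermediateField ℚ ℂ := ℚ⟮zC n⟯

instance (n : ℕ) : NeZero (2 ^ (n + 2)) := ⟨by positivity⟩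

instance (n : ℕ) : IsCyclotomicExtension {2 ^ (n + 2)} ℚ (L n) := by
  have h1 : IsAlgebraic ℚ (zC n) :=
    ((zC_prim n).isIntegral (by positivity)).tower_top.isAlgebraic
  change IsCyclotomicExtension {2 ^ (n + 2)} ℚ (L n).toSubalgebra
  rw [L, adjoin_simple_toSubalgebra_of_isAlgebraic h1]
  exact (zC_prim n).adjoin_isCyclotomicExtension ℚ

instance (n : ℕ) : NumberField (L n) := IsCyclotomicExtension.numberField {2 ^ (n + 2)} ℚ (L n)

instance (n : ℕ) : IsAbelianGalois ℚ (L n) :=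
  IsCyclotomicExtension.isAbelianGalois {2 ^ (n + 2)} ℚ (L n)

/-- the root of unity in `L n` -/
def z (n : ℕ) : L n := ⟨zC n, mem_adjoin_simple_self ℚ (zC n)⟩

theorem z_prim (n : ℕ) : IsPrimitiveRoot (z n) (2 ^ (n + 2)) :=
  IsPrimitiveRoot.coe_submonoidClass_iff.1 (zC_prim n)

theorem XR_eq (n : ℕ) : ((XR n : ℝ) : ℂ) = zC n + (zC n)⁻¹ := by
  rw [XR, zC, ← Complex.exp_neg]
  push_cast
  rw [Complex.cos]
  have e1 : (2 * (Real.pi : ℂ) / 2 ^ (n + 2) * Complex.I) =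
      2 * (Real.pi : ℂ) * Complex.I / 2 ^ (n + 2) := by ring
  have e2 : (-(2 * (Real.pi : ℂ) / 2 ^ (n + 2)) * Complex.I) =
      -(2 * (Real.pi : ℂ) * Complex.I / 2 ^ (n + 2)) := by ring
  rw [e1, e2]
  ring

theorem ofReal_mem (n : ℕ) (y : B n) : ((y : ℝ) : ℂ) ∈ L n := by
  have h : B n ≤ (L n).comap (Complex.ofRealAm.restrictScalars ℚ) := by
    rw [B, adjoin_simple_le_iff]
    change ((XR n : ℝ) : ℂ) ∈ L n
    rw [XR_eq]
    have := mem_adjoin_simple_self ℚ (zC n)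
    exact add_mem this (inv_mem this)
  exact h y.2

/-- the embedding of `𝔹_n` -/
def iB (n : ℕ) : B n →ₐ[ℚ] L n :=
  ((Complex.ofRealAm.restrictScalars ℚ).comp (B n).val).codRestrict (L n).toSubalgebra
    (fun y => ofReal_mem n y)

theorem iB_coe (n : ℕ) (y : B n) : ((iB n y : L n) : ℂ) = ((y : ℝ) : ℂ) := rfl

theorem iB_x (n : ℕ) : iB n (xB n) = z n + (z n)⁻¹ := by
  apply Subtype.ext
  rw [iB_coe]
  exact XR_eq n

instance (n : ℕ) : IsAbelianGalois ℚ (B n) := IsAbelianGalois.of_algHom (iB n)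

instance (n : ℕ) : FiniteDimensional ℚ (B n) :=
  Module.Finite.of_injective (iB n).toLinearMap (iB n).injective

end Helper62.Weber
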