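import Pool.Agent.Helper62.Weber.Field

/-!
# The Galois action on the layers (MP_e74dc5_nt)
-/

set_option autoImplicit false

open IntermediateField

noncomputable section

namespace Helper62.Weber

instance (n : ℕ) : Algebra (B n) (L n) := (iB n).toRingHom.toAlgebra

instance (n : ℕ) : IsScalarTower ℚ (B n) (L n) :=
  IsScalarTower.of_algebraMap_eq fun x => ((iB n).commutes x).symm

/-- restriction of automorphisms -/
def res (n : ℕ) : (L n ≃ₐ[ℚ] L n) →* (B n ≃ₐ[ℚ] B n) := AlgEquiv.restrictNormalHom (B n)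

theorem res_spec (n : ℕ) (g : L n ≃ₐ[ℚ] L n) (y : B n) : iB n (res n g y) = g (iB n y) :=
  AlgEquiv.restrictNormal_commutes g (B n) y

theorem res_surj (n : ℕ) : Function.Surjective (res n) :=
  AlgEquiv.restrictNormalHom_surjective _

theorem z_pow_mod (n k : ℕ) : z n ^ (k % 2 ^ (n + 2)) = z n ^ k := by
  have h := (z_prim n).eq_orderOf
  rw [pow_eq_pow_mod k (z_prim n).pow_eq_one]

theorem exists_aut (n k : ℕ) (hk : Odd k) : ∃ g : L n ≃ₐ[ℚ] L n, g (z n) = z n ^ k := by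
  have hc : Nat.Coprime k (2 ^ (n + 2)) := Nat.Coprime.pow_right _ (Nat.coprime_two_right.2 hk)
  refine ⟨(IsCyclotomicExtension.Rat.galEquivZMod (2 ^ (n + 2)) (L n)).symm
    (ZMod.unitOfCoprime k hc), ?_⟩
  rw [IsCyclotomicExtension.Rat.galEquivZMod_apply_of_pow_eq _ _ _ (z_prim n).pow_eq_one,
    MulEquiv.apply_symm_apply, ZMod.coe_unitOfCoprime, ZMod.val_natCast]
  exact z_pow_mod n k

/-- `ζ ↦ ζ^5` -/
def sL (n : ℕ) : L n ≃ₐ[ℚ] L n := (exists_aut n 5 (by decide)).choose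

theorem sL_z (n : ℕ) : sL n (z n) = z n ^ 5 := (exists_aut n 5 (by decide)).choose_spec

theorem sL_pow_z (n k : ℕ) : (sL n ^ k) (z n) = z n ^ 5 ^ k := by
  induction k with
  | zero => simp
  | succ k ih =>
    rw [pow_succ', AlgEquiv.mul_apply, ih, map_pow, sL_z, ← pow_mul, pow_succ' 5 k]

/-- the generator of the Galois group of `𝔹_n` -/
def s (n : ℕ) : B n ≃ₐ[ℚ] B n := res n (sL n)

theorem iB_s (n k : ℕ) (y : B n) : iB n ((s n ^ k) y) = (sL n ^ k) (iB n y) := by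
  rw [s, ← map_pow, res_spec]

theorem five_pow (m : ℕ) : ∃ c : ℕ, 5 ^ 2 ^ m = 1 + 2 ^ (m + 2) * (1 + 2 * c) := by
  induction m with
  | zero => exact ⟨0, by norm_num⟩
  | succ m ih =>
    obtain ⟨c, hc⟩ := ih
    refine ⟨c + 2 ^ m * (1 + 2 * c) ^ 2, ?_⟩
    rw [pow_succ 2 m, pow_mul, hc]
    ring

theorem z_half (n : ℕ) : z n ^ 2 ^ (n + 1) = -1 := by
  have h1 : (z n ^ 2 ^ (n + 1)) ^ 2 = 1 := by
    rw [← pow_mul, ← pow_succ]; exact (z_prim n).pow_eq_one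
  rcases sq_eq_one_iff.1 h1 with h | h
  · exfalso
    have h2 := (z_prim n).dvd_of_pow_eq_one _ h
    have h3 := Nat.le_of_dvd (by positivity) h2
    have h4 : 2 ^ (n + 2) = 2 * 2 ^ (n + 1) := by rw [pow_succ']
    have h5 : 0 < 2 ^ (n + 1) := by positivity
    omega
  · exact h

theorem rho_z {n : ℕ} (hn : 1 ≤ n) : (sL n ^ 2 ^ (n - 1)) (z n) = -z n := by
  obtain ⟨m, rfl⟩ : ∃ m, n = m + 1 := ⟨n - 1, by omega⟩
  obtain ⟨c, hc⟩ := five_pow m
  rw [sL_pow_z, Nat.add_sub_cancel, hc, pow_add, pow_one, pow_mul]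
  rw [show m + 2 = (m + 1) + 1 from rfl, z_half]
  rw [Odd.neg_one_pow ⟨c, by ring⟩]
  ring

theorem iB_inj {n : ℕ} {y y' : B n} (h : iB n y = iB n y') : y = y' := (iB n).injective h

theorem rho_x {n : ℕ} (hn : 1 ≤ n) : (s n ^ 2 ^ (n - 1)) (xB n) = -xB n := by
  apply iB_inj
  rw [iB_s, map_neg, iB_x, map_add, map_inv₀, rho_z hn, inv_neg]
  ring

theorem hom_ext {n : ℕ} {K : Type*} [Field K] [Algebra ℚ K] {f g : B n →ₐ[ℚ] K}
    (h : f (xB n) = g (xB n)) : f = g := by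
  refine algHom_ext_of_eq_adjoin ℚ (s := {XR n}) rfl fun y hy => ?_
  have : y = XR n := hy
  subst this
  exact h

theorem aut_ext {n : ℕ} {f g : B n ≃ₐ[ℚ] B n} (h : f (xB n) = g (xB n)) : f = g := by
  have h1 : (f : B n →ₐ[ℚ] B n) = g := hom_ext h
  ext y
  exact congrArg Subtype.val (DFunLike.congr_fun h1 y)

theorem homL_ext {n : ℕ} {K : Type*} [Field K] [Algebra ℚ K] {f g : L n →ₐ[ℚ] K}
    (h : f (z n) = g (z n)) : f = g := by
  refine algHom_ext_of_eq_adjoin ℚ (s := {zC n}) rfl fun y hy => ?_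
  have : y = zC n := hy
  subst this
  exact h

theorem autL_ext {n : ℕ} {f g : L n ≃ₐ[ℚ] L n} (h : f (z n) = g (z n)) : f = g := by
  have h1 : (f : L n →ₐ[ℚ] L n) = g := homL_ext h
  ext y
  exact congrArg Subtype.val (DFunLike.congr_fun h1 y)

theorem XR_pred {n : ℕ} (hn : 1 ≤ n) : XR (n - 1) = XR n ^ 2 - 2 := by
  obtain ⟨m, rfl⟩ : ∃ m, n = m + 1 := ⟨n - 1, by omega⟩
  have h : 2 * Real.pi / 2 ^ (m + 2) = 2 * (2 * Real.pi / 2 ^ (m + 1 + 2)) := by
    rw [pow_succ 2 (m + 2)]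
    have : (2 : ℝ) ^ (m + 2) ≠ 0 := by positivity
    field_simp
  rw [Nat.add_sub_cancel, XR, XR, h, Real.cos_two_mul]
  ring

theorem xB_ne_zero {n : ℕ} (hn : 1 ≤ n) : xB n ≠ 0 := by
  intro h
  have h1 : XR n = 0 := congrArg Subtype.val h
  have h2 : 0 < XR n := by
    have h3 : 0 < Real.cos (2 * Real.pi / 2 ^ (n + 2)) := by
      apply Real.cos_pos_of_mem_Ioo
      have hp := Real.pi_pos
      have h4 : (8 : ℝ) ≤ 2 ^ (n + 2) := by
        calc (8 : ℝ) = 2 ^ 3 := by norm_num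
          _ ≤ 2 ^ (n + 2) := pow_le_pow_right₀ (by norm_num) (by omega)
      constructor
      · have : 0 < 2 * Real.pi / 2 ^ (n + 2) := by positivity
        linarith
      · rw [div_lt_iff₀ (by positivity)]
        nlinarith
    unfold XR
    linarith
  linarith

/-- the non-trivial automorphism over the previous layer -/
theorem rho_fix {n : ℕ} (hn : 1 ≤ n) (y : B n) (hy : (y : ℝ) ∈ B (n - 1)) :
    (s n ^ 2 ^ (n - 1)) y = y := by
  have hle : B (n - 1) ≤ (IntermediateField.fixedField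
      (Subgroup.zpowers (s n ^ 2 ^ (n - 1)))).map (B n).val := by
    rw [B, adjoin_simple_le_iff]
    refine ⟨xB n ^ 2 - 2, ?_, ?_⟩
    · change xB n ^ 2 - 2 ∈ IntermediateField.fixedField (Subgroup.zpowers (s n ^ 2 ^ (n - 1)))
      rw [IntermediateField.mem_fixedField_iff]
      intro f hf
      obtain ⟨k, rfl⟩ := Subgroup.mem_zpowers_iff.1 hf
      have h1 : (s n ^ 2 ^ (n - 1)) • (xB n ^ 2 - 2) = xB n ^ 2 - 2 := by
        change (s n ^ 2 ^ (n - 1)) (xB n ^ 2 - 2) = xB n ^ 2 - 2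
        rw [map_sub, map_pow, rho_x hn, neg_sq]
        congr 1
        exact map_ofNat _ 2
      have h2 : (s n ^ 2 ^ (n - 1)) ∈ MulAction.stabilizer (B n ≃ₐ[ℚ] B n) (xB n ^ 2 - 2) := h1
      exact (MulAction.stabilizer (B n ≃ₐ[ℚ] B n) (xB n ^ 2 - 2)).zpow_mem h2 k
    · exact (XR_pred hn).symm
  obtain ⟨w, hw, hwy⟩ := hle hy
  have hwy' : w = y := Subtype.ext hwy
  subst hwy'
  exact (IntermediateField.mem_fixedField_iff _ _).1 hw _ (Subgroup.mem_zpowers _)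

theorem x_ne_neg {n : ℕ} (hn : 1 ≤ n) : xB n ≠ -xB n := by
  intro h
  have h1 : (2 : B n) * xB n = 0 := by linear_combination h
  rcases mul_eq_zero.1 h1 with h2 | h2
  · exact two_ne_zero h2
  · exact xB_ne_zero hn h2

theorem rho_ne {n : ℕ} (hn : 1 ≤ n) : s n ^ 2 ^ (n - 1) ≠ 1 := by
  intro h
  have h1 := rho_x hn
  rw [h] at h1
  exact x_ne_neg hn h1

theorem tau_eq {n : ℕ} (hn : 1 ≤ n) (τ : B n ≃ₐ[ℚ] B n) (h1 : τ ≠ 1)
    (h2 : ∀ y : B n, (y : ℝ) ∈ B (n - 1) → τ y = y) : τ = s n ^ 2 ^ (n - 1) := by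
  have h3 : τ (xB n ^ 2 - 2) = xB n ^ 2 - 2 := by
    apply h2
    have : ((xB n ^ 2 - 2 : B n) : ℝ) = XR (n - 1) := (XR_pred hn).symm
    rw [this]
    exact mem_adjoin_simple_self ℚ _
  rw [map_sub, map_pow, map_ofNat, sub_left_inj, sq_eq_sq_iff_eq_or_eq_neg] at h3
  rcases h3 with h | h
  · exact absurd (aut_ext h) h1
  · apply aut_ext
    rw [h, rho_x hn]

theorem mem_RE {n : ℕ} (hn : 1 ≤ n) (u : (B n)ˣ) :
    u ∈ RE n ↔ u ∈ En n ∧ (u : B n) * (s n ^ 2 ^ (n - 1)) u = 1 := by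
  constructor
  · rintro ⟨h1, h2⟩
    exact ⟨h1, h2 _ (rho_ne hn) fun y hy => rho_fix hn y hy⟩
  · rintro ⟨h1, h2⟩
    refine ⟨h1, fun τ h3 h4 => ?_⟩
    rw [tau_eq hn τ h3 h4]
    exact h2

theorem index_two_aux {G : Type*} [Group G] (H : Subgroup G) (h : H.index = 2) (a u : G)
    (ha : a ∉ H) : u ∈ H ∨ a * u ∈ H := by
  by_cases hu : u ∈ H
  · exact Or.inl hu
  · right
    rw [Subgroup.mul_mem_iff_of_index_two h]
    exact iff_of_false ha hu

/-- the units of `ℤ/2^(n+2)` are the classes `± 5^k` -/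
theorem unit_five (n : ℕ) (u : (ZMod (2 ^ (n + 2)))ˣ) :
    ∃ k : ℕ, (u : ZMod (2 ^ (n + 2))) = 5 ^ k ∨ (u : ZMod (2 ^ (n + 2))) = -5 ^ k := by
  have hc : Nat.Coprime 5 (2 ^ (n + 2)) := Nat.Coprime.pow_right _ (by norm_num)
  set f : (ZMod (2 ^ (n + 2)))ˣ := ZMod.unitOfCoprime 5 hc with hf
  have hfv : (f : ZMod (2 ^ (n + 2))) = 5 := by
    rw [hf, ZMod.coe_unitOfCoprime]; norm_num
  have ho : orderOf f = 2 ^ n := by
    rw [← orderOf_units, hfv]
    exact ZMod.orderOf_five n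
  have h1 : Nat.card (Subgroup.zpowers f) = 2 ^ n := by rw [Nat.card_zpowers, ho]
  have h2 : Nat.card (ZMod (2 ^ (n + 2)))ˣ = 2 ^ (n + 1) := by
    rw [Nat.card_eq_fintype_card, ZMod.card_units_eq_totient, Nat.totient_prime_pow Nat.prime_two
      (by omega)]
    norm_num
  have h3 : (Subgroup.zpowers f).index = 2 := by
    have h4 := (Subgroup.zpowers f).card_mul_index
    rw [h1, h2] at h4
    exact Nat.eq_of_mul_eq_mul_left (by positivity : 0 < 2 ^ n) (h4.trans (pow_succ 2 n))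
  have h5 : (-1 : (ZMod (2 ^ (n + 2)))ˣ) ∉ Subgroup.zpowers f := by
    intro h
    obtain ⟨k, hk⟩ := (mem_zpowers_iff_mem_range_orderOf.1 h |> Finset.mem_image.1)
    have h6 := congrArg (Units.val) hk.2
    rw [Units.val_pow_eq_pow_val, hfv, Units.val_neg, Units.val_one] at h6
    have h7 := congrArg (ZMod.castHom (pow_dvd_pow 2 (by omega : 2 ≤ n + 2)) (ZMod (2 ^ 2))) h6
    rw [map_pow, map_neg, map_one, map_ofNat] at h7
    have h8 : (5 : ZMod (2 ^ 2)) = 1 := by decide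
    rw [h8, one_pow] at h7
    revert h7
    decide
  rcases index_two_aux _ h3 _ u h5 with h | h
  · obtain ⟨k, hk⟩ := (mem_zpowers_iff_mem_range_orderOf.1 h |> Finset.mem_image.1)
    refine ⟨k, Or.inl ?_⟩
    have h6 := congrArg (Units.val) hk.2
    rw [Units.val_pow_eq_pow_val, hfv] at h6
    exact h6.symm
  · obtain ⟨k, hk⟩ := (mem_zpowers_iff_mem_range_orderOf.1 h |> Finset.mem_image.1)
    refine ⟨k, Or.inr ?_⟩
    have h6 := congrArg (Units.val) hk.2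
    rw [Units.val_pow_eq_pow_val, hfv, Units.val_mul, Units.val_neg, Units.val_one] at h6
    rw [h6]
    ring

/-- every automorphism is a power of `s n` -/
theorem exists_pow_s (n : ℕ) (g : B n ≃ₐ[ℚ] B n) : ∃ k : ℕ, g = s n ^ k := by
  obtain ⟨g', rfl⟩ := res_surj n g
  set u := IsCyclotomicExtension.Rat.galEquivZMod (2 ^ (n + 2)) (L n) g' with hu
  have h1 : g' (z n) = z n ^ u.val.val :=
    IsCyclotomicExtension.Rat.galEquivZMod_apply_of_pow_eq _ _ _ (z_prim n).pow_eq_one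
  obtain ⟨k, hk⟩ := unit_five n u
  refine ⟨k, aut_ext (iB_inj ?_)⟩
  rw [res_spec, iB_s, iB_x, map_add, map_inv₀, map_add, map_inv₀, sL_pow_z, h1]
  rcases hk with hk | hk
  · have h2 : z n ^ u.val.val = z n ^ 5 ^ k := by
      rw [hk]
      have h3 : ((5 : ZMod (2 ^ (n + 2))) ^ k) = ((5 ^ k : ℕ) : ZMod (2 ^ (n + 2))) := by
        push_cast; rfl
      rw [h3, ZMod.val_natCast, z_pow_mod]
    rw [h2]
  · have h2 : z n ^ u.val.val = (z n ^ 5 ^ k)⁻¹ := by
      apply eq_inv_of_mul_eq_one_left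
      rw [← pow_add]
      rw [(z_prim n).pow_eq_one_iff_dvd, ← ZMod.natCast_eq_zero_iff]
      push_cast
      rw [ZMod.natCast_val, ZMod.cast_id, hk]
      ring
    rw [h2, inv_inv]
    ring

end Helper62.Weber
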