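import Mathlib

/-!
# Auxiliary facts on polynomials for the layer argument (MP_e74dc5_nt)
-/

set_option autoImplicit false

open Polynomial

noncomputable section

namespace Helper62.Weber

/-- the product of quadratic polynomials -/
def Fp {K : Type*} [Field K] {D : ℕ} (w : Fin D → K) (a : Fin D → ℕ) : K[X] :=
  ∏ k, (C (w k ^ 2) * X ^ 2 + C (w k) * X + 1) ^ a k

theorem Fp_eval {K : Type*} [Field K] {D : ℕ} (w : Fin D → K) (a : Fin D → ℕ) (x : K) :
    (Fp w a).eval x = ∏ k, ((x * w k) ^ 2 + x * w k + 1) ^ a k := by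
  rw [Fp, eval_prod]
  refine Finset.prod_congr rfl fun k _ => ?_
  simp only [eval_pow, eval_add, eval_mul, eval_C, eval_X, eval_one]
  ring

theorem Fp_map {K : Type*} [Field K] {D : ℕ} (g : K →+* K) (w : Fin D → K) (a : Fin D → ℕ) :
    (Fp w a).map g = Fp (fun k => g (w k)) a := by
  rw [Fp, Fp, Polynomial.map_prod]
  refine Finset.prod_congr rfl fun k _ => ?_
  simp only [Polynomial.map_pow, Polynomial.map_add, Polynomial.map_mul, map_C, map_X,
    Polynomial.map_one, map_pow]

/-- first two coefficients -/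
def P1 {K : Type*} [Field K] (p : K[X]) (c : K) : Prop := p.coeff 0 = 1 ∧ p.coeff 1 = c

theorem P1_one {K : Type*} [Field K] : P1 (1 : K[X]) 0 := by
  constructor
  · simp
  · rw [coeff_one]; simp

theorem P1_mul {K : Type*} [Field K] {p q : K[X]} {c c' : K} (h : P1 p c) (h' : P1 q c') :
    P1 (p * q) (c + c') := by
  constructor
  · rw [mul_coeff_zero, h.1, h'.1, one_mul]
  · rw [mul_coeff_one, h.1, h.2, h'.1, h'.2]; ring

theorem P1_pow {K : Type*} [Field K] {p : K[X]} {c : K} (h : P1 p c) (m : ℕ) :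
    P1 (p ^ m) (m * c) := by
  induction m with
  | zero => rw [pow_zero, Nat.cast_zero, zero_mul]; exact P1_one
  | succ m ih =>
    have h1 := P1_mul ih h
    rw [pow_succ]
    have e : ((m + 1 : ℕ) : K) * c = (m : K) * c + c := by push_cast; ring
    rw [e]
    exact h1

theorem P1_prod {K : Type*} [Field K] {ι : Type*} (s : Finset ι) (p : ι → K[X]) (c : ι → K)
    (h : ∀ i ∈ s, P1 (p i) (c i)) : P1 (∏ i ∈ s, p i) (∑ i ∈ s, c i) := by
  classical
  induction s using Finset.induction_on with
  | empty => rw [Finset.prod_empty, Finset.sum_empty]; exact P1_one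
  | insert i s hi ih =>
    rw [Finset.prod_insert hi, Finset.sum_insert hi]
    exact P1_mul (h i (Finset.mem_insert_self i s))
      (ih fun j hj => h j (Finset.mem_insert_of_mem hj))

theorem P1_Fp {K : Type*} [Field K] {D : ℕ} (w : Fin D → K) (a : Fin D → ℕ) :
    P1 (Fp w a) (∑ k, (a k : K) * w k) := by
  refine P1_prod _ _ _ fun k _ => P1_pow ?_ _
  constructor
  · simp
  · rw [coeff_add, coeff_add, coeff_C_mul_X_pow, if_neg (by norm_num), coeff_C_mul, coeff_X_one,
      coeff_one, if_neg (by norm_num), zero_add, mul_one, add_zero]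

theorem P1_expand {K : Type*} [Field K] {p : K[X]} {c : K} (h : P1 p c) {l : ℕ} (hl : 2 ≤ l) :
    P1 (expand K l p) 0 := by
  constructor
  · rw [coeff_expand (by omega), if_pos (dvd_zero l), Nat.zero_div, h.1]
  · rw [coeff_expand (by omega), if_neg]
    intro h1
    have := Nat.le_of_dvd one_pos h1
    omega

theorem Fp_deg {K : Type*} [Field K] {D : ℕ} (w : Fin D → K) (a : Fin D → ℕ) {l : ℕ}
    (ha : ∀ k, a k ≤ l) : (Fp w a).natDegree ≤ 2 * D * l := by
  rw [Fp]
  refine (natDegree_prod_le _ _).trans ?_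
  have h : ∀ k ∈ (Finset.univ : Finset (Fin D)),
      ((C (w k ^ 2) * X ^ 2 + C (w k) * X + 1) ^ a k).natDegree ≤ 2 * l := by
    intro k _
    refine natDegree_pow_le.trans ?_
    have h1 : (C (w k ^ 2) * X ^ 2 + C (w k) * X + 1 : K[X]).natDegree ≤ 2 := by
      have := natDegree_quadratic_le (a := w k ^ 2) (b := w k) (c := (1 : K))
      simpa using this
    calc a k * _ ≤ l * 2 := Nat.mul_le_mul (ha k) h1
      _ = 2 * l := mul_comm _ _
  refine (Finset.sum_le_sum h).trans ?_
  rw [Finset.sum_const, Finset.card_univ, Fintype.card_fin, smul_eq_mul]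
  exact le_of_eq (by ring)

/-- extraction of the first coefficient by averaging -/
theorem average {K : Type*} [Field K] {N : ℕ} (hN : 2 ≤ N) {η : K} (hη : IsPrimitiveRoot η N)
    (p : K[X]) (hp : p.natDegree ≤ N) (x : K) :
    ∑ j ∈ Finset.range N, η ^ (j * (N - 1)) * p.eval (x * η ^ j) = N * p.coeff 1 * x := by
  have h1 : ∀ j ∈ Finset.range N, η ^ (j * (N - 1)) * p.eval (x * η ^ j) =
      ∑ i ∈ Finset.range (N + 1), p.coeff i * x ^ i * (η ^ (N - 1 + i)) ^ j := by
    intro j _
    rw [eval_eq_sum_range' (Nat.lt_succ_of_le hp), Finset.mul_sum]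
    refine Finset.sum_congr rfl fun i _ => ?_
    rw [mul_pow, ← pow_mul, ← pow_mul, add_mul, pow_add, mul_comm j (N - 1), mul_comm j i]
    ring
  rw [Finset.sum_congr rfl h1, Finset.sum_comm]
  have h2 : ∀ i ∈ Finset.range (N + 1), i ≠ 1 →
      ∑ j ∈ Finset.range N, p.coeff i * x ^ i * (η ^ (N - 1 + i)) ^ j = 0 := by
    intro i hi hi1
    rw [← Finset.mul_sum]
    have h3 : η ^ (N - 1 + i) ≠ 1 := by
      intro h
      rw [hη.pow_eq_one_iff_dvd] at h
      obtain ⟨m, hm⟩ := h
      have h4 := Finset.mem_range.1 hi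
      rcases Nat.lt_or_ge m 1 with h5 | h5
      · have : m = 0 := by omega
        rw [this, mul_zero] at hm
        omega
      · rcases Nat.lt_or_ge m 2 with h6 | h6
        · have : m = 1 := by omega
          rw [this, mul_one] at hm
          omega
        · have : N * 2 ≤ N * m := Nat.mul_le_mul_left _ h6
          omega
    have h5 : (η ^ (N - 1 + i) - 1) * ∑ j ∈ Finset.range N, (η ^ (N - 1 + i)) ^ j = 0 := by
      rw [mul_geom_sum, ← pow_mul, mul_comm, pow_mul, hη.pow_eq_one, one_pow, sub_self]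
    rcases mul_eq_zero.1 h5 with h6 | h6
    · exact absurd (sub_eq_zero.1 h6) h3
    · rw [h6, mul_zero]
  rw [Finset.sum_eq_single_of_mem 1 (Finset.mem_range.2 (by omega)) h2]
  have h6 : N - 1 + 1 = N := by omega
  rw [h6, hη.pow_eq_one]
  simp only [one_pow, mul_one, pow_one, Finset.sum_const, Finset.card_range, nsmul_eq_mul]
  ring

end Helper62.Weber
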