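import Pool.Agent.Helper62.Weber.Dv

/-!
# Linear independence of the roots of unity `w_k` modulo `ℓ` (MP_e74dc5_nt)
-/

set_option autoImplicit false

open IntermediateField Polynomial

noncomputable section

namespace Helper62.Weber

/-- `w_k = ζ^(5^(k 2^(n-t)) - 1)` -/
def wk (n t k : ℕ) : L n := z n ^ (5 ^ (k * 2 ^ (n - t)) - 1)

theorem wk_mul (n t k : ℕ) : z n * wk n t k = z n ^ 5 ^ (k * 2 ^ (n - t)) := by
  rw [wk, ← pow_succ', Nat.sub_add_cancel (Nat.one_le_pow _ _ (by norm_num))]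

theorem wk_int (n t k : ℕ) : IsIntegral ℤ (wk n t k) := (z_int n).pow _

theorem pow_odd {a c : ℕ} (ha : 1 ≤ a) (hc : Odd c) (i : ℕ) :
    ∃ c', Odd c' ∧ (1 + 2 ^ a * c) ^ (2 * i + 1) = 1 + 2 ^ a * c' := by
  obtain ⟨a', rfl⟩ : ∃ a', a = a' + 1 := ⟨a - 1, by omega⟩
  induction i with
  | zero => exact ⟨c, hc, by ring⟩
  | succ i ih =>
    obtain ⟨c', ⟨m, rfl⟩, h⟩ := ih
    refine ⟨(2 * m + 1) + 2 * c + 2 ^ (a' + 1) * c ^ 2 +
      (2 * m + 1) * (2 ^ (a' + 2) * c + 2 ^ (2 * a' + 2) * c ^ 2), ?_, ?_⟩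
    · refine ⟨m + c + 2 ^ a' * c ^ 2 + (2 * m + 1) * (2 ^ (a' + 1) * c + 2 ^ (2 * a' + 1) * c ^ 2),
        ?_⟩
      ring
    · have e : 2 * (i + 1) + 1 = (2 * i + 1) + 2 := by ring
      rw [e, pow_add, h]
      ring

theorem five_gen {n t d : ℕ} (htn : t ≤ n) (hd : 1 ≤ d) (hdt : d < 2 ^ (t - 1)) :
    ∃ a c : ℕ, a ≤ n ∧ Odd c ∧ 5 ^ (d * 2 ^ (n - t)) = 1 + 2 ^ a * c := by
  obtain ⟨v, d', ⟨i, hi⟩, hdv⟩ := Nat.exists_eq_two_pow_mul_odd (n := d) (by omega)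
  obtain ⟨c, hc⟩ := five_pow (v + (n - t))
  obtain ⟨c', hc', h⟩ := pow_odd (a := v + (n - t) + 2) (c := 1 + 2 * c) (by omega)
    ⟨c, by ring⟩ i
  have hv : v < t - 1 := by
    by_contra hcon
    rw [not_lt] at hcon
    have h1 : 2 ^ (t - 1) ≤ 2 ^ v := Nat.pow_le_pow_right (by norm_num) hcon
    have h2 : 2 ^ v ≤ d := by
      rw [hdv]
      exact Nat.le_mul_of_pos_right _ (by omega)
    omega
  refine ⟨v + (n - t) + 2, c', by omega, hc', ?_⟩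
  rw [← h, ← hc, ← pow_mul, hdv, hi]
  congr 1
  rw [pow_add]
  ring

theorem z_neg {n m : ℕ} (hm : Odd m) : z n ^ (2 ^ (n + 1) * m) = -1 := by
  rw [pow_mul, z_half, hm.neg_one_pow]

theorem wk_pow_lt {n t j k : ℕ} (htn : t ≤ n) (hkj : k < j) (hj : j < 2 ^ (t - 1)) :
    ∃ b, 1 ≤ b ∧ wk n t j ^ 2 ^ b = -wk n t k ^ 2 ^ b := by
  obtain ⟨a, c, ha, hc, h⟩ := five_gen (n := n) (t := t) (d := j - k) htn (by omega) (by omega)
  refine ⟨n + 1 - a, by omega, ?_⟩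
  have h1 : z n ^ 2 ^ (n + 1 - a) ≠ 0 := pow_ne_zero _ (z_ne n)
  apply mul_left_cancel₀ h1
  rw [← mul_pow, mul_neg, ← mul_pow, wk_mul, wk_mul, ← pow_mul, ← pow_mul]
  have h2 : 5 ^ (j * 2 ^ (n - t)) = 5 ^ (k * 2 ^ (n - t)) * (1 + 2 ^ a * c) := by
    rw [← h, ← pow_add, ← add_mul, Nat.add_sub_cancel' hkj.le]
  have h3 : 5 ^ (j * 2 ^ (n - t)) * 2 ^ (n + 1 - a) =
      5 ^ (k * 2 ^ (n - t)) * 2 ^ (n + 1 - a) + 2 ^ (n + 1) * (5 ^ (k * 2 ^ (n - t)) * c) := by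
    have h4 : 2 ^ (n + 1) = 2 ^ a * 2 ^ (n + 1 - a) := by
      rw [← pow_add]; congr 1; omega
    rw [h2, h4]
    ring
  rw [h3, pow_add, z_neg, mul_neg_one]
  exact (Odd.pow (by decide)).mul hc

theorem wk_pow {n t j k : ℕ} (htn : t ≤ n) (hjk : j ≠ k) (hj : j < 2 ^ (t - 1))
    (hk : k < 2 ^ (t - 1)) : ∃ b, 1 ≤ b ∧ wk n t j ^ 2 ^ b = -wk n t k ^ 2 ^ b := by
  rcases lt_or_gt_of_ne hjk with h | h
  · obtain ⟨b, hb, h1⟩ := wk_pow_lt htn h hk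
    exact ⟨b, hb, by rw [h1, neg_neg]⟩
  · exact wk_pow_lt htn h hj

theorem trace_zero {n b : ℕ} (hb : 1 ≤ b) {ξ : L n} {e : ℕ} (he : ξ = z n ^ e)
    (h : ξ ^ 2 ^ b = -1) : Algebra.trace ℚ (L n) ξ = 0 := by
  have hodd : Odd (1 + 2 ^ b) := by
    obtain ⟨b', rfl⟩ : ∃ b', b = b' + 1 := ⟨b - 1, by omega⟩
    exact ⟨2 ^ b', by ring⟩
  obtain ⟨g, hg⟩ := exists_aut n (1 + 2 ^ b) hodd
  have h1 : g ξ = -ξ := by
    rw [he, map_pow, hg, ← pow_mul, mul_comm, pow_mul, ← he, pow_add, pow_one, h]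
    ring
  have h2 := Algebra.trace_eq_of_algEquiv g ξ
  rw [h1, map_neg] at h2
  linarith

theorem fin_rank (n : ℕ) : Module.finrank ℚ (L n) = 2 ^ (n + 1) := by
  rw [IsCyclotomicExtension.finrank (n := 2 ^ (n + 2)) (L n)
    (cyclotomic.irreducible_rat (by positivity)), Nat.totient_prime_pow Nat.prime_two (by omega)]
  simp

theorem indep {n t l : ℕ} (htn : t ≤ n) (hl : l.Prime) (hodd : Odd l)
    (a : Fin (2 ^ (t - 1)) → ℕ) (h : Dv n l (∑ k, (a k : L n) * wk n t k)) : ∀ k, l ∣ a k := by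
  intro k
  obtain ⟨v, hv, h⟩ := h
  set wi : L n := wk n t k ^ (2 ^ (n + 2) - 1) with hwi
  have hww : wk n t k * wi = 1 := by
    rw [hwi, ← pow_succ', Nat.sub_add_cancel Nat.one_le_two_pow, wk, ← pow_mul, mul_comm, pow_mul,
      (z_prim n).pow_eq_one, one_pow]
  have h1 : ∑ j, (a j : L n) * (wk n t j * wi) = (l : L n) * (v * wi) := by
    rw [← mul_assoc, ← h, Finset.sum_mul]
    exact Finset.sum_congr rfl fun j _ => by ring
  have h2 := congrArg (Algebra.trace ℚ (L n)) h1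
  rw [map_sum] at h2
  have h3 : ∀ j ∈ (Finset.univ : Finset (Fin (2 ^ (t - 1)))), j ≠ k →
      Algebra.trace ℚ (L n) ((a j : L n) * (wk n t j * wi)) = 0 := by
    intro j _ hjk
    obtain ⟨b, hb, h4⟩ := wk_pow (n := n) htn (fun h => hjk (Fin.ext h)) j.2 k.2
    have h5 : Algebra.trace ℚ (L n) (wk n t j * wi) = 0 := by
      refine trace_zero hb (e := (5 ^ ((j : ℕ) * 2 ^ (n - t)) - 1) +
        (5 ^ ((k : ℕ) * 2 ^ (n - t)) - 1) * (2 ^ (n + 2) - 1)) ?_ ?_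
      · rw [hwi, wk, wk, pow_add (z n), pow_mul (z n)]
      · rw [mul_pow, h4, neg_mul, ← mul_pow, hww, one_pow]
    have h6 : (a j : L n) * (wk n t j * wi) = (a j : ℚ) • (wk n t j * wi) := by
      rw [Algebra.smul_def]
      simp
    rw [h6, map_smul, h5, smul_zero]
  rw [Finset.sum_eq_single k h3 (fun h => absurd (Finset.mem_univ k) h), hww, mul_one] at h2
  have h7 : Algebra.trace ℚ (L n) (a k : L n) = 2 ^ (n + 1) * (a k : ℚ) := by
    have : (a k : L n) = algebraMap ℚ (L n) (a k : ℚ) := by simp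
    rw [this, Algebra.trace_algebraMap, fin_rank, nsmul_eq_mul]
    push_cast
    ring
  have h8 : Algebra.trace ℚ (L n) ((l : L n) * (v * wi)) =
      (l : ℚ) * Algebra.trace ℚ (L n) (v * wi) := by
    have : (l : L n) * (v * wi) = (l : ℚ) • (v * wi) := by
      rw [Algebra.smul_def]
      simp
    rw [this, map_smul, smul_eq_mul]
  have h9 : IsIntegral ℤ (Algebra.trace ℚ (L n) (v * wi)) :=
    Algebra.isIntegral_trace (hv.mul ((wk_int n t k).pow _))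
  obtain ⟨M, hM⟩ := IsIntegrallyClosed.isIntegral_iff.1 h9
  rw [h7, h8, ← hM] at h2
  have h10 : (2 : ℤ) ^ (n + 1) * (a k : ℤ) = l * M := by
    have : (algebraMap ℤ ℚ) M = (M : ℚ) := rfl
    rw [this] at h2
    exact_mod_cast h2
  have h11 : (l : ℤ) ∣ 2 ^ (n + 1) * (a k : ℤ) := ⟨M, h10⟩
  have h12 : IsCoprime (l : ℤ) (2 ^ (n + 1)) := by
    apply IsCoprime.pow_right
    rw [show (2 : ℤ) = ((2 : ℕ) : ℤ) from rfl, Nat.isCoprime_iff_coprime]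
    exact Nat.coprime_two_right.2 hodd
  exact_mod_cast h12.dvd_of_dvd_mul_left h11

end Helper62.Weber
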