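import Pool.Agent.Helper62.Weber.LayA
import Pool.Agent.Helper62.Weber.Tr
import Pool.Agent.Helper62.Weber.Act

/-!
# No bad primes in high layers (MP_e74dc5_nt)
-/

set_option autoImplicit false

open IntermediateField Polynomial

noncomputable section

namespace Helper62.Weber

theorem sL_x_sub (n j : ℕ) : (sL n ^ j) (iB n (xB n - 1)) * z n ^ 5 ^ j =
    (z n ^ 5 ^ j) ^ 2 - z n ^ 5 ^ j + 1 := by
  have hz : z n ^ 5 ^ j ≠ 0 := pow_ne_zero _ (z_ne n)
  rw [map_sub, iB_x, map_sub, map_add, map_inv₀, sL_pow_z, map_one, map_one]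
  field_simp
  ring

theorem sL_x_add (n j : ℕ) : (sL n ^ j) (iB n (xB n + 1)) * z n ^ 5 ^ j =
    (z n ^ 5 ^ j) ^ 2 + z n ^ 5 ^ j + 1 := by
  have hz : z n ^ 5 ^ j ≠ 0 := pow_ne_zero _ (z_ne n)
  rw [map_add, iB_x, map_add, map_add, map_inv₀, sL_pow_z, map_one, map_one]
  field_simp
  ring

theorem den_ne (n j : ℕ) : (z n ^ 5 ^ j) ^ 2 - z n ^ 5 ^ j + 1 ≠ 0 := by
  rw [← sL_x_sub]
  refine mul_ne_zero ?_ (pow_ne_zero _ (z_ne n))
  intro h
  have h1 : iB n (xB n - 1) = 0 := (map_eq_zero_iff _ (sL n ^ j).injective).1 h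
  exact (x_sub n).1 ((map_eq_zero_iff _ (iB n).injective).1 h1)

/-- the image of `ε` under `σ^j` -/
theorem iB_eps (n j : ℕ) : iB n (gal (s n ^ j) (eps n) : B n) =
    ((z n ^ 5 ^ j) ^ 2 + z n ^ 5 ^ j + 1) / ((z n ^ 5 ^ j) ^ 2 - z n ^ 5 ^ j + 1) := by
  rw [gal_val, iB_s, eps_val, map_div₀, map_div₀, ← sL_x_add, ← sL_x_sub,
    mul_div_mul_right _ _ (pow_ne_zero _ (z_ne n))]

theorem lam_nat {n t l : ℕ} (hn : 1 ≤ n) (hl : l.Prime)
    (h : ∃ a ∈ Lam (Phi n t hn) l, ¬ ∀ k, (l : ℤ) ∣ a k) :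
    ∃ (a : Fin (2 ^ (t - 1)) → ℕ) (m : Mo n), (∀ k, a k < l) ∧
      Phi n t hn (fun k => (a k : ℤ)) = (l : ℤ) • m ∧ ¬ ∀ k, l ∣ a k := by
  obtain ⟨a, ⟨m, hm⟩, hnd⟩ := h
  have hl0 : (0 : ℤ) < l := by exact_mod_cast hl.pos
  have hcast : ∀ k, (((a k % l).toNat : ℕ) : ℤ) = a k % l := fun k =>
    Int.toNat_of_nonneg (Int.emod_nonneg _ hl0.ne')
  refine ⟨fun k => (a k % l).toNat, m - Phi n t hn (fun k => a k / l), ?_, ?_, ?_⟩
  · intro k
    have h1 := Int.emod_lt_of_pos (a k) hl0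
    rw [← hcast k] at h1
    exact_mod_cast h1
  · have e : (fun k => (((a k % l).toNat : ℕ) : ℤ)) = a - (l : ℤ) • (fun k => a k / l) := by
      funext k
      rw [Pi.sub_apply, Pi.smul_apply, smul_eq_mul, hcast k]
      have := Int.emod_add_mul_ediv (a k) l
      linarith
    rw [e, map_sub, map_zsmul, hm, zsmul_sub]
  · intro hall
    apply hnd
    intro k
    have h1 : (l : ℤ) ∣ a k % l := by
      rw [← hcast k]
      exact_mod_cast hall k
    have h2 := Int.emod_add_mul_ediv (a k) l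
    rw [← h2]
    exact dvd_add h1 (dvd_mul_right _ _)

theorem psi_wk {n l : ℕ} {ψ : L n ≃ₐ[ℚ] L n} (hψ : ψ (z n) = z n ^ l) (t k : ℕ) :
    ψ (wk n t k) = wk n t k ^ l := by
  rw [wk, map_pow, hψ, ← pow_mul, ← pow_mul, mul_comm]

theorem wk_fix {n t : ℕ} (htn : t ≤ n) {g : L n ≃ₐ[ℚ] L n}
    (hg : g (z n ^ 2 ^ (n + 2 - t)) = z n ^ 2 ^ (n + 2 - t)) (k : ℕ) :
    g (wk n t k) = wk n t k := by
  have h1 : 2 ^ (n + 2 - t) ∣ 5 ^ (k * 2 ^ (n - t)) - 1 := by
    obtain ⟨c, hc⟩ := five_pow (n - t)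
    have h2 : 5 ^ 2 ^ (n - t) - 1 ∣ (5 ^ 2 ^ (n - t)) ^ k - 1 ^ k :=
      Nat.sub_dvd_pow_sub_pow _ _ k
    rw [one_pow, ← pow_mul, mul_comm] at h2
    refine dvd_trans ?_ h2
    rw [hc, Nat.add_sub_cancel_left]
    have e : n - t + 2 = n + 2 - t := by omega
    rw [e]
    exact dvd_mul_right _ _
  obtain ⟨c, hc⟩ := h1
  rw [wk, hc, pow_mul, map_pow, hg]

theorem eval_hom {n : ℕ} (g : L n ≃ₐ[ℚ] L n) (p : (L n)[X]) (x : L n) :
    g (p.eval x) = (p.map (g : L n →+* L n)).eval (g x) := by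
  rw [eval_map]
  exact (eval₂_hom (g : L n →+* L n) x).symm

theorem Fp_int {n D : ℕ} {w : Fin D → L n} (hw : ∀ k, IsIntegral ℤ (w k)) (a : Fin D → ℕ)
    {x : L n} (hx : IsIntegral ℤ x) : IsIntegral ℤ ((Fp w a).eval x) := by
  rw [Fp_eval]
  refine IsIntegral.prod _ fun k _ => ?_
  have h1 := hx.mul (hw k)
  exact (((h1.pow 2).add h1).add isIntegral_one).pow _

/-- the difference polynomial -/
def Dl {K : Type*} [Field K] {D : ℕ} (l : ℕ) (w : Fin D → K) (a : Fin D → ℕ) : K[X] :=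
  expand K l (Fp (fun k => w k ^ l) a) * Fp (fun k => -w k) a ^ l -
    expand K l (Fp (fun k => -w k ^ l) a) * Fp w a ^ l

theorem Dl_map {K : Type*} [Field K] {D : ℕ} (l : ℕ) (w : Fin D → K) (a : Fin D → ℕ)
    (g : K →+* K) (hg : ∀ k, g (w k) = w k) : (Dl l w a).map g = Dl l w a := by
  rw [Dl, Polynomial.map_sub, Polynomial.map_mul, Polynomial.map_mul, Polynomial.map_pow,
    Polynomial.map_pow, map_expand, map_expand, Fp_map, Fp_map, Fp_map, Fp_map]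
  simp only [map_pow, map_neg, hg]

theorem Dl_coeff {K : Type*} [Field K] {D : ℕ} {l : ℕ} (hl : 2 ≤ l) (w : Fin D → K)
    (a : Fin D → ℕ) : (Dl l w a).coeff 1 = -((l : K) * (2 * ∑ k, (a k : K) * w k)) := by
  have h1 := P1_mul (P1_expand (P1_Fp (fun k => w k ^ l) a) hl) (P1_pow (P1_Fp (fun k => -w k) a) l)
  have h2 := P1_mul (P1_expand (P1_Fp (fun k => -w k ^ l) a) hl) (P1_pow (P1_Fp w a) l)
  rw [Dl, coeff_sub, h1.2, h2.2]
  simp only [mul_neg, Finset.sum_neg_distrib]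
  ring

theorem Dl_deg {K : Type*} [Field K] {D : ℕ} {l : ℕ} (w : Fin D → K) (a : Fin D → ℕ)
    (ha : ∀ k, a k ≤ l) : (Dl l w a).natDegree ≤ 4 * D * l ^ 2 := by
  have key : ∀ w w' : Fin D → K, (expand K l (Fp w a) * Fp w' a ^ l).natDegree ≤
      4 * D * l ^ 2 := by
    intro w w'
    refine natDegree_mul_le.trans ?_
    have h1 : (expand K l (Fp w a)).natDegree ≤ 2 * D * l ^ 2 := by
      rw [natDegree_expand]
      calc (Fp w a).natDegree * l ≤ 2 * D * l * l := Nat.mul_le_mul_right _ (Fp_deg w a ha)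
        _ = 2 * D * l ^ 2 := by ring
    have h2 : (Fp w' a ^ l).natDegree ≤ 2 * D * l ^ 2 := by
      refine natDegree_pow_le.trans ?_
      calc l * (Fp w' a).natDegree ≤ l * (2 * D * l) := Nat.mul_le_mul_left _ (Fp_deg w' a ha)
        _ = 2 * D * l ^ 2 := by ring
    calc _ ≤ 2 * D * l ^ 2 + 2 * D * l ^ 2 := add_le_add h1 h2
      _ = 4 * D * l ^ 2 := by ring
  rw [Dl]
  refine (natDegree_sub_le _ _).trans (max_le (key _ _) (key _ _))

theorem layer {n l t : ℕ} (hn : 1 ≤ n) (hl : l.Prime) (hodd : Odd l) (ht : 1 ≤ t) (htn : t ≤ n)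
    (hbig : 2 ^ (t + 1) * l ^ 2 ≤ 2 ^ (n + 2 - t))
    (h : ∃ a ∈ Lam (Phi n t hn) l, ¬ ∀ k, (l : ℤ) ∣ a k) : False := by
  have : Fact l.Prime := ⟨hl⟩
  obtain ⟨a, m, hal, hm, hnd⟩ := lam_nat hn hl h
  set w : Fin (2 ^ (t - 1)) → L n := fun k => wk n t k with hw
  have hwint : ∀ k, IsIntegral ℤ (w k) := fun k => wk_int n t k
  have hwint' : ∀ k, IsIntegral ℤ (-w k) := fun k => (hwint k).neg
  -- the equation
  set V : L n := iB n (vl m : B n) with hV
  have hVint : IsIntegral ℤ V := (int_iff _).2 (vl_mem m).1.1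
  have hFV : (Fp w a).eval (z n) = (Fp (fun k => -w k) a).eval (z n) * V ^ l := by
    have h1 : ph n t (fun k => (a k : ℤ)) = vl m ^ l := by
      rw [← vl_Phi n t hn, hm, vl_zsmul, zpow_natCast]
    have h2 : iB n ((ph n t (fun k => (a k : ℤ)) : (B n)ˣ) : B n) = V ^ l := by
      rw [h1, Units.val_pow_eq_pow_val, map_pow]
    have h3 : iB n ((ph n t (fun k => (a k : ℤ)) : (B n)ˣ) : B n) =
        ∏ k : Fin (2 ^ (t - 1)), (((z n * w k) ^ 2 + z n * w k + 1) /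
          ((z n * w k) ^ 2 - z n * w k + 1)) ^ a k := by
      rw [ph, Units.coe_prod, map_prod]
      refine Finset.prod_congr rfl fun k _ => ?_
      rw [zpow_natCast, Units.val_pow_eq_pow_val, map_pow, iB_eps, hw]
      simp only [wk_mul]
    have hden : ∀ k : Fin (2 ^ (t - 1)), (z n * w k) ^ 2 - z n * w k + 1 ≠ 0 := by
      intro k
      rw [hw]
      simp only [wk_mul]
      exact den_ne n _
    rw [Fp_eval, Fp_eval, ← h2, h3, ← Finset.prod_mul_distrib]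
    refine Finset.prod_congr rfl fun k _ => ?_
    have e : (z n * -w k) ^ 2 + z n * -w k + 1 = (z n * w k) ^ 2 - z n * w k + 1 := by ring
    rw [e, ← mul_pow, mul_div_cancel₀ _ (hden k)]
  -- Frobenius
  obtain ⟨ψ, hψ⟩ := exists_aut n l hodd
  have hψw : ∀ k, ψ (w k) = w k ^ l := fun k => psi_wk hψ t k
  set Fz := (Fp w a).eval (z n) with hFz
  set Hz := (Fp (fun k => -w k) a).eval (z n) with hHz
  have hHint : IsIntegral ℤ Hz := Fp_int hwint' a (z_int n)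
  have hψF : ψ Fz = (Fp (fun k => w k ^ l) a).eval (z n ^ l) := by
    rw [hFz, eval_hom, Fp_map, hψ]
    congr 2
    funext k
    exact hψw k
  have hψH : ψ Hz = (Fp (fun k => -w k ^ l) a).eval (z n ^ l) := by
    rw [hHz, eval_hom, Fp_map, hψ]
    congr 2
    funext k
    change ψ (-w k) = -w k ^ l
    rw [map_neg, hψw k]
  have hΔz : Dv n (l * l) ((Dl l w a).eval (z n)) := by
    have e : (Dl l w a).eval (z n) = (ψ Hz * Hz ^ l) * (ψ V ^ l - (V ^ l) ^ l) := by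
      rw [Dl, eval_sub, eval_mul, eval_mul, expand_eval, expand_eval, eval_pow, eval_pow, ← hψF,
        ← hψH, ← hFz, ← hHz, hFV, map_mul, map_pow]
      ring
    rw [e]
    refine Dv_mul (pow_int ?_ (hVint.pow l) (frob_int hψ hVint)) ?_
    · exact hVint.map (ψ.toAlgHom.restrictScalars ℤ)
    · exact (hHint.map (ψ.toAlgHom.restrictScalars ℤ)).mul (hHint.pow l)
  -- averaging
  set N := 2 ^ (n + 2 - t) with hN
  have hNt : 2 ^ t * N = 2 ^ (n + 2) := by
    rw [hN, ← pow_add]; congr 1; omega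
  have hη : IsPrimitiveRoot (z n ^ 2 ^ t) N := (z_prim n).pow (by positivity) hNt.symm
  have hN2 : 2 ≤ N := by
    rw [hN]
    calc 2 = 2 ^ 1 := rfl
      _ ≤ 2 ^ (n + 2 - t) := Nat.pow_le_pow_right (by norm_num) (by omega)
  have hdeg : (Dl l w a).natDegree ≤ N := by
    refine (Dl_deg w a (fun k => (hal k).le)).trans (le_trans (le_of_eq ?_) hbig)
    have e : 2 ^ (t + 1) = 4 * 2 ^ (t - 1) := by
      obtain ⟨t', rfl⟩ : ∃ t', t = t' + 1 := ⟨t - 1, by omega⟩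
      rw [Nat.add_sub_cancel]
      ring
    rw [e]
  have hav := average hN2 hη (Dl l w a) hdeg (z n)
  have hDv1 : Dv n (l * l) ((N : L n) * (Dl l w a).coeff 1 * z n) := by
    rw [← hav]
    refine Dv_sum _ _ fun j _ => Dv_mul ?_ (((z_int n).pow _).pow _)
    obtain ⟨g, hg⟩ := exists_aut n (1 + j * 2 ^ t) (by
      obtain ⟨t', rfl⟩ : ∃ t', t = t' + 1 := ⟨t - 1, by omega⟩
      exact ⟨j * 2 ^ t', by ring⟩)
    have hgz : g (z n) = z n * (z n ^ 2 ^ t) ^ j := by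
      rw [hg, pow_add, pow_one, ← pow_mul, mul_comm j]
    have hgN : g (z n ^ N) = z n ^ N := by
      have h1 : (z n ^ (1 + j * 2 ^ t)) ^ N = z n ^ N * (z n ^ 2 ^ (n + 2)) ^ j := by
        rw [← hNt]; ring
      rw [map_pow, hg, h1, (z_prim n).pow_eq_one, one_pow, mul_one]
    have hgD : (Dl l w a).map (g : L n →+* L n) = Dl l w a :=
      Dl_map l w a _ fun k => wk_fix htn hgN k
    have e : (Dl l w a).eval (z n * (z n ^ 2 ^ t) ^ j) = g ((Dl l w a).eval (z n)) := by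
      rw [eval_hom, hgD, hgz]
    rw [e]
    exact Dv_gal hΔz g
  have hDv2 : Dv n (l * l) ((l : L n) * (((2 * N : ℕ) : L n) * ∑ k, (a k : L n) * w k)) := by
    have h1 := Dv_mul hDv1 (((z_int n).pow (2 ^ (n + 2) - 1)).neg)
    have h2 : z n ^ (2 ^ (n + 2) - 1) * z n = 1 := by
      rw [← pow_succ, Nat.sub_add_cancel Nat.one_le_two_pow, (z_prim n).pow_eq_one]
    rw [Dl_coeff hl.two_le] at h1
    have e : -z n ^ (2 ^ (n + 2) - 1) * ((N : L n) * -((l : L n) * (2 * ∑ k, (a k : L n) * w k)) *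
        z n) = (z n ^ (2 ^ (n + 2) - 1) * z n) *
        ((l : L n) * (((2 * N : ℕ) : L n) * ∑ k, (a k : L n) * w k)) := by
      push_cast
      ring
    rw [e, h2, one_mul] at h1
    exact h1
  have hSint : IsIntegral ℤ (∑ k, (a k : L n) * w k) :=
    IsIntegral.sum _ fun k _ => (isIntegral_natCast (a k)).mul (hwint k)
  have hDv3 : Dv n l (∑ k, (a k : L n) * w k) := by
    refine Dv_coprime (N := 2 * N) ?_ hSint (Dv_cancel hl.ne_zero hDv2)
    have h1 : 2 * N = 2 ^ (n + 2 - t + 1) := by rw [hN, pow_succ']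
    rw [h1]
    exact Nat.Coprime.pow_right _ (Nat.coprime_two_right.2 hodd)
  exact hnd (indep htn hl hodd a hDv3)

end Helper62.Weber
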